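import Pool.Agent.H46.TS.Ds

/-!
ROW TM (twisted sums as `Fc`).
PROOF. For `y^d ≠ 1`: `y / (1 - y) = (∑_{1 ≤ n ≤ d} y^n) / (1 - y^d)` and, in characteristic `l`, for `y^(l d) ≠ 1`,
`y / (1 - y)^2 = (∑_{n < l d} n y^n) / (1 - y^(l d))`
(the second: `(1 - y) * ∑_{n<L} n y^n = (∑_{1≤n≤L} y^n) - L y^L`, and `(L : Ω) = 0` for `L = l * d`; so `(1-y)^2 ∑_{n<L} n y^n = y (1 - y^L)`).
Put `y = ξ^t x`; `y^d = x^d` as `ξ^d = 1`. Sum over `t` with coefficients `ψ t`; `(ξ^t)^n = ξ^((t * n).val)` (`t n : ZMod d`).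
`tw1`: the term `n = d` has the coefficient `∑_t ψ t = 0`, as has the term `n = 0` in `Fc`.
-/

set_option autoImplicit false

namespace H46TS

open Finset

private lemma TM_val {Ω : Type*} [Field Ω] {d : ℕ} [NeZero d] {ξ : Ω} (hξ : ξ ^ d = 1)
    (t : ZMod d) (n : ℕ) : (ξ ^ t.val) ^ n = ξ ^ (t * (n : ZMod d)).val := by
  rw [← pow_mul]
  have h1 : (t * (n : ZMod d)).val = (t.val * n) % d := by
    rw [ZMod.val_mul, ZMod.val_natCast, Nat.mul_mod, Nat.mod_mod, ← Nat.mul_mod]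
  rw [h1]
  conv_lhs => rw [← Nat.div_add_mod (t.val * n) d, pow_add, pow_mul, hξ, one_pow, one_mul]

private lemma TM_geom {Ω : Type*} [Field Ω] {d : ℕ} {y : Ω} (hy : y ^ d ≠ 1) :
    y / (1 - y) = (∑ n ∈ range d, y ^ (n + 1)) / (1 - y ^ d) := by
  have h1 : (1 : Ω) - y ^ d ≠ 0 := sub_ne_zero.mpr (Ne.symm hy)
  have h2 : (1 : Ω) - y ≠ 0 := by
    intro h
    apply hy
    rw [← sub_eq_zero.mp h, one_pow]
  rw [div_eq_div_iff h2 h1]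
  have h3 := mul_neg_geom_sum y d
  have h4 : ∑ n ∈ range d, y ^ (n + 1) = y * ∑ n ∈ range d, y ^ n := by
    rw [mul_sum]
    apply sum_congr rfl
    intro n _
    ring
  rw [h4, ← h3]
  ring

private lemma TM_sq_id {Ω : Type*} [Field Ω] (L : ℕ) (y : Ω) :
    (1 - y) ^ 2 * ∑ n ∈ range L, (n : Ω) * y ^ n =
      y - (L : Ω) * y ^ L + ((L : Ω) - 1) * y ^ (L + 1) := by
  induction L with
  | zero => simp
  | succ L ih =>
    rw [sum_range_succ, mul_add, ih]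
    push_cast
    ring

private lemma TM_sq {Ω : Type*} [Field Ω] {L : ℕ} (hL : (L : Ω) = 0) {y : Ω} (hy : y ^ L ≠ 1) :
    y / (1 - y) ^ 2 = (∑ n ∈ range L, (n : Ω) * y ^ n) / (1 - y ^ L) := by
  have h1 : (1 : Ω) - y ^ L ≠ 0 := sub_ne_zero.mpr (Ne.symm hy)
  have h2 : (1 : Ω) - y ≠ 0 := by
    intro h
    apply hy
    rw [← sub_eq_zero.mp h, one_pow]
  rw [div_eq_div_iff (pow_ne_zero 2 h2) h1]
  have h3 := TM_sq_id L y
  rw [hL] at h3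
  rw [mul_comm (∑ n ∈ range L, (n : Ω) * y ^ n), h3]
  ring

theorem tw1 {Ω : Type*} [Field Ω] {d : ℕ} [NeZero d] {ψ : (ZMod d)ˣ →* Ωˣ} {ξ : Ω} (hξ : ξ ^ d = 1)
    (hψ : ∑ t : (ZMod d)ˣ, (ψ t : Ω) = 0) {x : Ω} (hx : x ^ d ≠ 1) :
    ∑ t : (ZMod d)ˣ, (ψ t : Ω) * (ξ ^ (t : ZMod d).val * x / (1 - ξ ^ (t : ZMod d).val * x)) =
      Fc (c1 ψ ξ) x := by
  have hyd : ∀ t : (ZMod d)ˣ, (ξ ^ (t : ZMod d).val * x) ^ d = x ^ d := by
    intro t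
    rw [mul_pow, ← pow_mul, mul_comm _ d, pow_mul, hξ, one_pow, one_mul]
  have h1 : ∀ t : (ZMod d)ˣ, (ψ t : Ω) * (ξ ^ (t : ZMod d).val * x / (1 - ξ ^ (t : ZMod d).val * x)) =
      (∑ n ∈ range d, ((ψ t : Ω) * ξ ^ ((t : ZMod d) * ((n + 1 : ℕ) : ZMod d)).val) * x ^ (n + 1)) /
        (1 - x ^ d) := by
    intro t
    rw [TM_geom (d := d) (by rw [hyd]; exact hx), hyd, ← mul_div_assoc, mul_sum]
    congr 1
    apply sum_congr rfl
    intro n _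
    rw [mul_pow, TM_val hξ, mul_assoc]
  rw [sum_congr rfl (fun t _ => h1 t), ← sum_div, sum_comm]
  unfold Fc
  congr 1
  have h2 : ∀ n ∈ range d, ∑ t : (ZMod d)ˣ,
      ((ψ t : Ω) * ξ ^ ((t : ZMod d) * ((n + 1 : ℕ) : ZMod d)).val) * x ^ (n + 1) =
      c1 ψ ξ ((n + 1 : ℕ) : ZMod d) * x ^ (n + 1) := by
    intro n _
    rw [← sum_mul]
    rfl
  rw [sum_congr rfl h2]
  have h0 : c1 ψ ξ 0 = 0 := by
    unfold c1
    simp only [mul_zero, ZMod.val_zero, pow_zero, mul_one]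
    exact hψ
  have h3 := sum_range_succ (fun n => c1 ψ ξ (n : ZMod d) * x ^ n) d
  have h4 := sum_range_succ' (fun n => c1 ψ ξ (n : ZMod d) * x ^ n) d
  rw [h3] at h4
  have h5 : ((d : ℕ) : ZMod d) = 0 := ZMod.natCast_self d
  simp only [h5, h0, zero_mul, add_zero, Nat.cast_zero] at h4
  exact h4.symm

theorem tw2 {Ω : Type*} [Field Ω] {l d : ℕ} [Fact l.Prime] [CharP Ω l] [NeZero d] {ψ : (ZMod d)ˣ →* Ωˣ}
    {ξ : Ω} (hξ : ξ ^ d = 1) {x : Ω} (hx : x ^ (l * d) ≠ 1) :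
    ∑ t : (ZMod d)ˣ, (ψ t : Ω) * (ξ ^ (t : ZMod d).val * x / (1 - ξ ^ (t : ZMod d).val * x) ^ 2) =
      Fc (c2 l ψ ξ) x := by
  have hL : ((l * d : ℕ) : Ω) = 0 := by
    rw [Nat.cast_mul, CharP.cast_eq_zero, zero_mul]
  have hyd : ∀ t : (ZMod d)ˣ, (ξ ^ (t : ZMod d).val * x) ^ (l * d) = x ^ (l * d) := by
    intro t
    rw [mul_pow]
    have h1 : (ξ ^ (t : ZMod d).val) ^ (l * d) = 1 := by
      rw [← pow_mul, show (t : ZMod d).val * (l * d) = d * ((t : ZMod d).val * l) by ring, pow_mul,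
        hξ, one_pow]
    rw [h1, one_mul]
  have h1 : ∀ t : (ZMod d)ˣ, (ψ t : Ω) * (ξ ^ (t : ZMod d).val * x / (1 - ξ ^ (t : ZMod d).val * x) ^ 2) =
      (∑ n ∈ range (l * d), ((ψ t : Ω) * ((n : Ω) * ξ ^ ((t : ZMod d) * (n : ZMod d)).val)) * x ^ n) /
        (1 - x ^ (l * d)) := by
    intro t
    rw [TM_sq (L := l * d) hL (by rw [hyd]; exact hx), hyd, ← mul_div_assoc, mul_sum]
    congr 1
    apply sum_congr rfl
    intro n _
    rw [mul_pow, TM_val hξ]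
    ring
  rw [sum_congr rfl (fun t _ => h1 t), ← sum_div, sum_comm]
  unfold Fc
  congr 1
  apply sum_congr rfl
  intro n hn
  rw [← sum_mul]
  congr 1
  unfold c2 c1
  rw [ZMod.val_cast_of_lt (mem_range.mp hn), mul_sum]
  apply sum_congr rfl
  intro t _
  ring

end H46TS
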