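import Pool.Agent.H46.TS.Ds

/-!
ROW TN (the coefficient functions of twisted sums are good).
PROOF. `sum_psi`: `t ↦ -t` gives `S = ψ(-1) S = - S`, `2 ≠ 0`.
`pow_fro`: write `φ(d) = l^a * r`, `¬ l ∣ r`; `s0 = totient (d * r)`, `l^s0 ≡ 1 mod d r`. `ξ^d = 1` gives `ξ^(l^s0) = ξ`. `ψ(t)^φ(d) = 1` implies `ψ(t)^r = 1` in
characteristic `l` (`ExpChar.pow_prime_pow_mul_eq_one_iff`), so `ψ(t)^(l^s0) = ψ(t)`.
`good1`, `good2`: `odd`: `c1 ψ ξ (-n) = ψ(-1) c1 ψ ξ n` by `t ↦ -t`; for `c2`: `((-n).val : Ω) = - (n.val : Ω)` in characteristic `l` for `n : ZMod (l * d)`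
(`(-n).val + n.val` is divisible by `l * d`) and `((-n).val : ZMod d) = - (n.val : ZMod d)`. `zero`: `sum_psi`, resp. `(0 : ZMod _).val = 0`.
`fro`: the Frobenius `y ↦ y^(l^s0)` is a ring homomorphism fixing `ξ`, the `ψ t` and the images of natural numbers.
`ne`: if `c1 ψ ξ n = 0` for all `n` mod `d`, multiply by `ξ^(-n)` and sum over `n`: `d * ψ 1 = 0` (`∑_n ξ^((t - 1) n) = 0` for `t ≠ 1`), but `(d : Ω) ≠ 0` as
`l.Coprime d`. For `c2` choose (CRT) a representative `n < l d` with `n ≡ 1 mod l` and `n ≡ n0 mod d`, where `c1 ψ ξ n0 ≠ 0`.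
-/

set_option autoImplicit false

namespace H46TS

open Finset

private lemma two_ne {Ω : Type*} [Field Ω] {l : ℕ} [Fact l.Prime] [CharP Ω l] (hl2 : l ≠ 2) :
    (2 : Ω) ≠ 0 := by
  intro h
  have h1 : ((2 : ℕ) : Ω) = 0 := by exact_mod_cast h
  have h2 := (CharP.cast_eq_zero_iff Ω l 2).1 h1
  exact hl2 ((Nat.prime_dvd_prime_iff_eq Fact.out Nat.prime_two).1 h2)

private lemma c1_neg {Ω : Type*} [Field Ω] {d : ℕ} [NeZero d] (ψ : (ZMod d)ˣ →* Ωˣ) (ξ : Ω)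
    (n : ZMod d) : c1 ψ ξ (-n) = (ψ (-1) : Ω) * c1 ψ ξ n := by
  unfold c1
  rw [Finset.mul_sum]
  refine Fintype.sum_equiv (Equiv.neg (ZMod d)ˣ) _ _ fun t => ?_
  rw [Equiv.neg_apply]
  have h1 : ((-t : (ZMod d)ˣ) : ZMod d) * n = (t : ZMod d) * (-n) := by
    rw [Units.val_neg]
    ring
  have h2 : ψ (-1) * ψ (-t) = ψ t := by
    rw [← map_mul, neg_one_mul, neg_neg]
  rw [h1, ← mul_assoc, ← Units.val_mul, h2]

theorem sum_psi {Ω : Type*} [Field Ω] {l d : ℕ} [Fact l.Prime] [CharP Ω l] (hl2 : l ≠ 2) [NeZero d]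
    {ψ : (ZMod d)ˣ →* Ωˣ} (hψ : ψ (-1) = -1) : ∑ t : (ZMod d)ˣ, (ψ t : Ω) = 0 := by
  have h : ∑ t : (ZMod d)ˣ, (ψ t : Ω) = - ∑ t : (ZMod d)ˣ, (ψ t : Ω) := by
    rw [← Finset.sum_neg_distrib]
    refine Fintype.sum_equiv (Equiv.neg (ZMod d)ˣ) _ _ fun t => ?_
    have h1 : (-t : (ZMod d)ˣ) = (-1) * t := by rw [neg_one_mul]
    rw [Equiv.neg_apply, h1, map_mul, hψ]
    simp
  have h2 : (2 : Ω) * ∑ t : (ZMod d)ˣ, (ψ t : Ω) = 0 := by linear_combination h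
  exact (mul_eq_zero.1 h2).resolve_left (two_ne (l := l) hl2)

theorem pow_fro {l : ℕ} [Fact l.Prime] (d : ℕ) [NeZero d] (hld : l.Coprime d) : ∃ s0 : ℕ, 1 ≤ s0 ∧
    ∀ (Ω : Type) [Field Ω] [CharP Ω l], (∀ ξ : Ω, ξ ^ d = 1 → ξ ^ (l ^ s0) = ξ) ∧
      ∀ (ψ : (ZMod d)ˣ →* Ωˣ) (t : (ZMod d)ˣ), (ψ t : Ω) ^ (l ^ s0) = ψ t := by
  have hl : l.Prime := Fact.out
  have hd : d ≠ 0 := NeZero.ne d
  have hphi : d.totient ≠ 0 := (Nat.totient_pos.2 (Nat.pos_of_ne_zero hd)).ne'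
  obtain ⟨a, r, hr, har⟩ := Nat.exists_eq_pow_mul_and_not_dvd hphi l hl.ne_one
  have hr0 : r ≠ 0 := by
    rintro rfl
    exact hr (dvd_zero _)
  have hlr : l.Coprime r := (Nat.Prime.coprime_iff_not_dvd hl).2 hr
  have hmod : l ^ (d * r).totient ≡ 1 [MOD d * r] :=
    Nat.ModEq.pow_totient (Nat.Coprime.mul_right hld hlr)
  have hpos : 1 ≤ l ^ (d * r).totient := Nat.one_le_pow _ _ hl.pos
  have hdvd : d * r ∣ l ^ (d * r).totient - 1 := (Nat.modEq_iff_dvd' hpos).1 hmod.symm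
  have key : ∀ {Ω : Type} [Field Ω] (x : Ω) (m : ℕ), m ∣ l ^ (d * r).totient - 1 → x ^ m = 1 →
      x ^ (l ^ (d * r).totient) = x := by
    intro Ω _ x m hm hx
    obtain ⟨k, hk⟩ := hm
    have h1 : l ^ (d * r).totient = m * k + 1 := by omega
    rw [h1, pow_succ, pow_mul, hx, one_pow, one_mul]
  refine ⟨(d * r).totient, Nat.totient_pos.2 (Nat.mul_pos (Nat.pos_of_ne_zero hd)
    (Nat.pos_of_ne_zero hr0)), fun Ω _ _ => ⟨fun ξ hξ => ?_, fun ψ t => ?_⟩⟩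
  · exact key ξ d ((Dvd.intro _ rfl).trans hdvd) hξ
  · refine key _ r ((Dvd.intro_left _ rfl).trans hdvd) ?_
    have h1 : (ψ t : Ω) ^ (l ^ a * r) = 1 := by
      rw [← har, ← ZMod.card_units_eq_totient d, ← Units.val_pow_eq_pow_val, ← map_pow,
        pow_card_eq_one, map_one, Units.val_one]
    haveI : ExpChar Ω l := ExpChar.prime hl
    exact (ExpChar.pow_prime_pow_mul_eq_one_iff l a r _).1 h1

private lemma cast_ne' {Ω : Type*} [Field Ω] {l d : ℕ} [Fact l.Prime] [CharP Ω l]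
    (hld : l.Coprime d) : (d : Ω) ≠ 0 := by
  intro h
  have h1 := (CharP.cast_eq_zero_iff Ω l d).1 h
  exact ((Nat.Prime.coprime_iff_not_dvd Fact.out).1 hld) h1

theorem c1_ne {Ω : Type*} [Field Ω] {l d : ℕ} [Fact l.Prime] [CharP Ω l] [NeZero d]
    (hld : l.Coprime d) (ψ : (ZMod d)ˣ →* Ωˣ) {ξ : Ω} (hξ : IsPrimitiveRoot ξ d) : ∃ n, c1 ψ ξ n ≠ 0 := by
  classical
  by_contra hcon
  push Not at hcon
  have hprim := AddChar.zmodChar_primitive_of_primitive_root d hξ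
  set e := AddChar.zmodChar d ((IsPrimitiveRoot.iff_def ξ d).mp hξ).left with he
  have hev : ∀ x : ZMod d, e x = ξ ^ x.val := fun x => AddChar.zmodChar_apply _ x
  have h1 : ∑ n : ZMod d, e (-n) * c1 ψ ξ n = 0 := by
    refine Finset.sum_eq_zero fun n _ => ?_
    rw [hcon n, mul_zero]
  have h2 : ∑ n : ZMod d, e (-n) * c1 ψ ξ n =
      ∑ t : (ZMod d)ˣ, (ψ t : Ω) * ∑ n : ZMod d, e (n * ((t : ZMod d) - 1)) := by
    simp only [c1, Finset.mul_sum]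
    rw [Finset.sum_comm]
    refine Finset.sum_congr rfl fun t _ => Finset.sum_congr rfl fun n _ => ?_
    rw [← hev, show n * ((t : ZMod d) - 1) = -n + (t : ZMod d) * n by ring,
      AddChar.map_add_eq_mul]
    ring
  rw [h2, Finset.sum_eq_single (1 : (ZMod d)ˣ)] at h1
  · rw [AddChar.sum_mulShift _ hprim, if_pos (by simp), map_one, Units.val_one, one_mul,
      ZMod.card] at h1
    exact cast_ne' (l := l) hld h1
  · intro t _ ht
    rw [AddChar.sum_mulShift _ hprim, if_neg, Nat.cast_zero, mul_zero]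
    intro h3
    apply ht
    ext
    rw [Units.val_one]
    exact sub_eq_zero.1 h3
  · intro h3
    exact absurd (Finset.mem_univ _) h3

private lemma c1_fro {Ω : Type*} [Field Ω] {l d s0 : ℕ} [Fact l.Prime] [CharP Ω l] [NeZero d]
    {ψ : (ZMod d)ˣ →* Ωˣ} {ξ : Ω}
    (hξ0 : ξ ^ (l ^ s0) = ξ) (hψ0 : ∀ t, (ψ t : Ω) ^ (l ^ s0) = ψ t) (n : ZMod d) :
    c1 ψ ξ n ^ (l ^ s0) = c1 ψ ξ n := by
  unfold c1
  rw [sum_pow_char_pow]
  refine Finset.sum_congr rfl fun t _ => ?_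
  rw [mul_pow, hψ0 t, ← pow_mul, mul_comm _ (l ^ s0), pow_mul, hξ0]

theorem good1 {Ω : Type*} [Field Ω] {l d s0 : ℕ} [Fact l.Prime] [CharP Ω l] (hl2 : l ≠ 2) [NeZero d]
    (hld : l.Coprime d) {ψ : (ZMod d)ˣ →* Ωˣ} (hψ : ψ (-1) = -1) {ξ : Ω} (hξ : IsPrimitiveRoot ξ d)
    (hξ0 : ξ ^ (l ^ s0) = ξ) (hψ0 : ∀ t, (ψ t : Ω) ^ (l ^ s0) = ψ t) : Good l s0 (c1 ψ ξ) where
  odd a := by
    rw [c1_neg, hψ]
    simp
  zero := by
    unfold c1
    simp only [mul_zero, ZMod.val_zero, pow_zero, mul_one]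
    exact sum_psi hl2 hψ
  fro a := c1_fro hξ0 hψ0 a
  ne := c1_ne hld ψ hξ

private lemma val_neg_dvd {m : ℕ} [NeZero m] (n : ZMod m) : m ∣ (-n).val + n.val := by
  rw [← ZMod.natCast_eq_zero_iff]
  push_cast
  rw [ZMod.natCast_zmod_val, ZMod.natCast_zmod_val, neg_add_cancel]

theorem good2 {Ω : Type*} [Field Ω] {l d s0 : ℕ} [Fact l.Prime] [CharP Ω l] [NeZero d]
    (hld : l.Coprime d) {ψ : (ZMod d)ˣ →* Ωˣ} (hψ : ψ (-1) = 1) {ξ : Ω} (hξ : IsPrimitiveRoot ξ d)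
    (hξ0 : ξ ^ (l ^ s0) = ξ) (hψ0 : ∀ t, (ψ t : Ω) ^ (l ^ s0) = ψ t) : Good l s0 (c2 l ψ ξ) := by
  have hl : l.Prime := Fact.out
  haveI hne : NeZero (l * d) := ⟨Nat.mul_ne_zero hl.ne_zero (NeZero.ne d)⟩
  refine ⟨fun a => ?_, ?_, fun a => ?_, ?_⟩
  · have h1 := val_neg_dvd a
    have h2 : (((-a).val + a.val : ℕ) : Ω) = 0 :=
      (CharP.cast_eq_zero_iff Ω l _).2 ((Dvd.intro _ rfl).trans h1)
    have h3 : (((-a).val + a.val : ℕ) : ZMod d) = 0 :=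
      (ZMod.natCast_eq_zero_iff _ _).2 ((Dvd.intro_left _ rfl).trans h1)
    push_cast at h2 h3
    have h4 : ((-a).val : Ω) = -(a.val : Ω) := eq_neg_of_add_eq_zero_left h2
    have h5 : ((-a).val : ZMod d) = -(a.val : ZMod d) := eq_neg_of_add_eq_zero_left h3
    unfold c2
    rw [h4, h5, c1_neg, hψ, Units.val_one]
    ring
  · unfold c2
    rw [ZMod.val_zero, Nat.cast_zero, zero_mul]
  · unfold c2
    rw [mul_pow, c1_fro hξ0 hψ0]
    congr 1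
    have h1 := map_natCast (iterateFrobenius Ω l s0) a.val
    rwa [iterateFrobenius_def] at h1
  · obtain ⟨n0, hn0⟩ := c1_ne (l := l) hld ψ hξ
    obtain ⟨k, hk1, hk2⟩ := Nat.chineseRemainder hld 1 n0.val
    refine ⟨(k : ZMod (l * d)), ?_⟩
    have hv : (k : ZMod (l * d)).val ≡ k [MOD l * d] := by
      rw [ZMod.val_natCast]
      exact Nat.mod_modEq _ _
    have h1 : (((k : ZMod (l * d)).val : ℕ) : Ω) = 1 := by
      have := (CharP.natCast_eq_natCast Ω l).2 ((hv.of_mul_right d).trans hk1)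
      rw [this, Nat.cast_one]
    have h2 : (((k : ZMod (l * d)).val : ℕ) : ZMod d) = n0 := by
      have := (ZMod.natCast_eq_natCast_iff _ _ _).2 ((hv.of_mul_left l).trans hk2)
      rw [this, ZMod.natCast_zmod_val]
    unfold c2
    rw [h1, h2, one_mul]
    exact hn0

end H46TS
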