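import Pool.Agent.H46.TS.TZ
import Pool.Agent.H46.TS.TM
import Pool.Agent.H46.TS.TN
import Pool.Agent.H11.T3R.DfB

/-!
Twisted non vanishing in characteristic three (helper46): the statements `NVi`, `NVii` of helper11 and their versions for all levels.
-/

set_option autoImplicit false

namespace H46TS

open Finset H5SW H11R

theorem half_full {f : ℕ} [NeZero f] (hf : Odd f) (h1 : 1 < f) {Ω : Type*} [Field Ω] (h : (ZMod f)ˣ → Ω)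
    (hh : ∀ u, h (-u) = h u) : ∑ u, h u = 2 * ∑ u ∈ Hf f, h u := by
  classical
  have hH := isHalf_Hf hf h1
  rw [← Finset.sum_filter_add_sum_filter_not univ (fun u => u ∈ Hf f), two_mul]
  congr 1
  · congr 1
    ext u
    simp
  · refine Finset.sum_nbij' (fun u => -u) (fun u => -u) ?_ ?_ ?_ ?_ ?_
    · intro u hu
      rw [mem_filter] at hu
      by_contra hc
      exact hu.2 ((hH u).2 hc)
    · intro u hu
      rw [mem_filter]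
      exact ⟨mem_univ _, (hH u).1 hu⟩
    · intro u _
      exact neg_neg u
    · intro u _
      exact neg_neg u
    · intro u _
      exact (hh u).symm

theorem Tc_full {f : ℕ} [NeZero f] (hf : Odd f) (h1 : 1 < f) {Ω : Type*} [Field Ω] {M : ℕ} [NeZero M]
    {c : ZMod M → Ω} (hodd : ∀ a, c (-a) = - c a) (h0 : c 0 = 0) (χ : (ZMod f)ˣ →* Ωˣ) (hev : χ (-1) = 1)
    {z : Ω} (hz : z ^ f = 1) :
    ∑ u : (ZMod f)ˣ, (χ u : Ω) * Fc c (z ^ (u : ZMod f).val) = 2 * Tc c χ z := by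
  refine half_full hf h1 _ fun u => ?_
  have hz0 : z ≠ 0 := by
    rintro rfl
    rw [zero_pow (NeZero.ne f)] at hz
    exact zero_ne_one hz
  have e1 : χ (-u) = χ u := by
    rw [← neg_one_mul, map_mul, hev, one_mul]
  have e2 : z ^ ((-u : (ZMod f)ˣ) : ZMod f).val = (z ^ (u : ZMod f).val)⁻¹ := by
    have : Fact (1 < f) := ⟨h1⟩
    have hu : (u : ZMod f) ≠ 0 := u.ne_zero
    rw [Units.val_neg, ZMod.neg_val, if_neg hu]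
    apply eq_inv_of_mul_eq_one_left
    rw [← pow_add, Nat.sub_add_cancel (ZMod.val_lt _).le, hz]
  show (χ (-u) : Ω) * Fc c (z ^ ((-u : (ZMod f)ˣ) : ZMod f).val) = _
  rw [e1, e2, Fc_inv hodd h0 (pow_ne_zero _ hz0)]

/-- the character `ψ` with values in `Ω` -/
def psiO {d : ℕ} (ψ : (ZMod d)ˣ →* ℤˣ) (Ω : Type) [Field Ω] : (ZMod d)ˣ →* Ωˣ :=
  (Units.map (Int.castRingHom Ω).toMonoidHom).comp ψ

theorem psiO_apply {d : ℕ} (ψ : (ZMod d)ˣ →* ℤˣ) (Ω : Type) [Field Ω] (t : (ZMod d)ˣ) :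
    ((psiO ψ Ω t : Ωˣ) : Ω) = (((ψ t : ℤˣ) : ℤ) : Ω) := rfl

theorem zpow_ne {p n M : ℕ} [Fact p.Prime] (hpM : p.Coprime M) {Ω : Type*} [Field Ω] {z : Ω}
    (hz : IsPrimitiveRoot z (p ^ (n + 1))) (u : (ZMod (p ^ (n + 1)))ˣ) :
    (z ^ (u : ZMod (p ^ (n + 1))).val) ^ M ≠ 1 := by
  intro h
  rw [← pow_mul, hz.pow_eq_one_iff_dvd] at h
  have h1 : Nat.Coprime (p ^ (n + 1)) ((u : ZMod (p ^ (n + 1))).val * M) :=
    Nat.Coprime.mul_right (ZMod.val_coe_unit_coprime u).symm (Nat.Coprime.pow_left _ hpM)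
  have h2 := h1.eq_one_of_dvd h
  exact (Nat.one_lt_pow (Nat.succ_ne_zero n) (Fact.out : p.Prime).one_lt).ne' h2

/-- twisted non vanishing, all levels: general characteristic `l`, `ψ` odd, `R(x) = x / (1 - x)` -/
theorem nv1 {l p d : ℕ} [Fact l.Prime] [Fact p.Prime] [NeZero d] (hl2 : l ≠ 2) (hp2 : p ≠ 2) (hlp : l ≠ p)
    (hpd : p.Coprime d) (hld : l.Coprime d) : ∃ k0 : ℕ, ∀ (m n : ℕ) (hmn : m ≤ n), k0 ≤ m + 1 →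
      ∀ (Ω : Type) [Field Ω] [CharP Ω l] (ξ z : Ω), IsPrimitiveRoot ξ d → IsPrimitiveRoot z (p ^ (n + 1)) →
      ∀ ψ : (ZMod d)ˣ →* Ωˣ, ψ (-1) = -1 →
      ∀ χ : (ZMod (p ^ (n + 1)))ˣ →* Ωˣ, χ (-1) = 1 →
      (∃ u, ZMod.unitsMap (pow_dvd_pow p (Nat.succ_le_succ hmn)) u = 1 ∧ χ u ≠ 1) →
        ∑ u : (ZMod (p ^ (n + 1)))ˣ, (χ u : Ω) * ∑ t : (ZMod d)ˣ, (ψ t : Ω) *
          (ξ ^ (t : ZMod d).val * z ^ (u : ZMod (p ^ (n + 1))).val /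
            (1 - ξ ^ (t : ZMod d).val * z ^ (u : ZMod (p ^ (n + 1))).val)) ≠ 0 := by
  have hp : p.Prime := Fact.out
  have hl : l.Prime := Fact.out
  obtain ⟨s0, hs1, hs2⟩ := pow_fro (l := l) d hld
  obtain ⟨k0, hk0⟩ := sinnottG (l := l) (p := p) (M := d) hp2 hlp hpd hs1
  refine ⟨k0, ?_⟩
  intro m n hmn hkm Ω _ _ ξ z hξ hz ψ hψ χ hev hχ
  obtain ⟨hs3, hs4⟩ := hs2 Ω
  have hgood : Good l s0 (c1 ψ ξ) := good1 hl2 hld hψ hξ (hs3 ξ hξ.pow_eq_one) (hs4 ψ)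
  have h1 := hk0.level hp2 hlp hpd hmn hkm hz hgood χ hev hχ
  have hodd : Odd (p ^ (n + 1)) := (hp.odd_of_ne_two hp2).pow
  have hone : 1 < p ^ (n + 1) := Nat.one_lt_pow (Nat.succ_ne_zero n) hp.one_lt
  have h2 := Tc_full hodd hone hgood.odd hgood.zero χ hev hz.pow_eq_one
  have h3 : ∑ u : (ZMod (p ^ (n + 1)))ˣ, (χ u : Ω) * ∑ t : (ZMod d)ˣ, (ψ t : Ω) *
          (ξ ^ (t : ZMod d).val * z ^ (u : ZMod (p ^ (n + 1))).val /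
            (1 - ξ ^ (t : ZMod d).val * z ^ (u : ZMod (p ^ (n + 1))).val)) =
      ∑ u : (ZMod (p ^ (n + 1)))ˣ, (χ u : Ω) * Fc (c1 ψ ξ) (z ^ (u : ZMod (p ^ (n + 1))).val) := by
    refine sum_congr rfl fun u _ => ?_
    rw [tw1 hξ.pow_eq_one (sum_psi (l := l) hl2 hψ) (zpow_ne hpd hz u)]
  rw [h3, h2]
  refine mul_ne_zero ?_ h1
  intro h4
  have h5 : ((2 : ℕ) : Ω) = 0 := by exact_mod_cast h4
  rw [CharP.cast_eq_zero_iff Ω l] at h5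
  exact hl2 ((Nat.prime_dvd_prime_iff_eq hl Nat.prime_two).1 h5)

/-- twisted non vanishing, all levels: general characteristic `l`, `ψ` even, `R(x) = x / (1 - x)^2` -/
theorem nv2 {l p d : ℕ} [Fact l.Prime] [Fact p.Prime] [NeZero d] (hl2 : l ≠ 2) (hp2 : p ≠ 2) (hlp : l ≠ p)
    (hpd : p.Coprime d) (hld : l.Coprime d) : ∃ k0 : ℕ, ∀ (m n : ℕ) (hmn : m ≤ n), k0 ≤ m + 1 →
      ∀ (Ω : Type) [Field Ω] [CharP Ω l] (ξ z : Ω), IsPrimitiveRoot ξ d → IsPrimitiveRoot z (p ^ (n + 1)) →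
      ∀ ψ : (ZMod d)ˣ →* Ωˣ, ψ (-1) = 1 →
      ∀ χ : (ZMod (p ^ (n + 1)))ˣ →* Ωˣ, χ (-1) = 1 →
      (∃ u, ZMod.unitsMap (pow_dvd_pow p (Nat.succ_le_succ hmn)) u = 1 ∧ χ u ≠ 1) →
        ∑ u : (ZMod (p ^ (n + 1)))ˣ, (χ u : Ω) * ∑ t : (ZMod d)ˣ, (ψ t : Ω) *
          (ξ ^ (t : ZMod d).val * z ^ (u : ZMod (p ^ (n + 1))).val /
            (1 - ξ ^ (t : ZMod d).val * z ^ (u : ZMod (p ^ (n + 1))).val) ^ 2) ≠ 0 := by
  have hp : p.Prime := Fact.out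
  have hl : l.Prime := Fact.out
  have hpM : p.Coprime (l * d) := Nat.Coprime.mul_right ((Nat.coprime_primes hp hl).2 (Ne.symm hlp)) hpd
  have : NeZero (l * d) := ⟨mul_ne_zero hl.ne_zero (NeZero.ne d)⟩
  obtain ⟨s0, hs1, hs2⟩ := pow_fro (l := l) d hld
  obtain ⟨k0, hk0⟩ := sinnottG (l := l) (p := p) (M := l * d) hp2 hlp hpM hs1
  refine ⟨k0, ?_⟩
  intro m n hmn hkm Ω _ _ ξ z hξ hz ψ hψ χ hev hχ
  obtain ⟨hs3, hs4⟩ := hs2 Ω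
  have hgood : Good l s0 (c2 l ψ ξ) := good2 hld hψ hξ (hs3 ξ hξ.pow_eq_one) (hs4 ψ)
  have h1 := hk0.level hp2 hlp hpM hmn hkm hz hgood χ hev hχ
  have hodd : Odd (p ^ (n + 1)) := (hp.odd_of_ne_two hp2).pow
  have hone : 1 < p ^ (n + 1) := Nat.one_lt_pow (Nat.succ_ne_zero n) hp.one_lt
  have h2 := Tc_full hodd hone hgood.odd hgood.zero χ hev hz.pow_eq_one
  have h3 : ∑ u : (ZMod (p ^ (n + 1)))ˣ, (χ u : Ω) * ∑ t : (ZMod d)ˣ, (ψ t : Ω) *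
          (ξ ^ (t : ZMod d).val * z ^ (u : ZMod (p ^ (n + 1))).val /
            (1 - ξ ^ (t : ZMod d).val * z ^ (u : ZMod (p ^ (n + 1))).val) ^ 2) =
      ∑ u : (ZMod (p ^ (n + 1)))ˣ, (χ u : Ω) * Fc (c2 l ψ ξ) (z ^ (u : ZMod (p ^ (n + 1))).val) := by
    refine sum_congr rfl fun u _ => ?_
    rw [tw2 hξ.pow_eq_one (zpow_ne hpM hz u)]
  rw [h3, h2]
  refine mul_ne_zero ?_ h1
  intro h4
  have h5 : ((2 : ℕ) : Ω) = 0 := by exact_mod_cast h4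
  rw [CharP.cast_eq_zero_iff Ω l] at h5
  exact hl2 ((Nat.prime_dvd_prime_iff_eq hl Nat.prime_two).1 h5)

theorem prim_lvl {p k : ℕ} [Fact p.Prime] {Ω : Type*} [Field Ω] {χ : (ZMod (p ^ (k + 1)))ˣ →* Ωˣ} (hk : 1 ≤ k)
    (hχ : Prim χ) : ∃ u, ZMod.unitsMap (pow_dvd_pow p (Nat.succ_le_succ (Nat.sub_le k 1))) u = 1 ∧ χ u ≠ 1 := by
  obtain ⟨u, ⟨t, ht⟩, hu⟩ := hχ
  refine ⟨u, ?_, hu⟩
  apply Units.ext
  have h1 : ((ZMod.unitsMap (pow_dvd_pow p (Nat.succ_le_succ (Nat.sub_le k 1))) u : (ZMod _)ˣ) : ZMod _) =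
    ZMod.castHom (pow_dvd_pow p (Nat.succ_le_succ (Nat.sub_le k 1))) (ZMod (p ^ (k - 1).succ)) (u : ZMod _) := rfl
  rw [h1, ht]
  simp only [map_add, map_one, map_mul, map_pow, map_natCast, Units.val_one]
  have h2 : ((p : ZMod (p ^ (k - 1).succ)) ^ k) = 0 := by
    have := ZMod.natCast_self (p ^ (k - 1).succ)
    rw [Nat.cast_pow] at this
    rw [show (k - 1).succ = k by omega] at this ⊢
    exact this
  rw [h2]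
  ring

/-- twisted non vanishing in characteristic three for `ψ` even, all levels -/
theorem nvi_lvl {p d : ℕ} [Fact p.Prime] [NeZero d] (hp5 : 5 ≤ p) (hpd : ¬ p ∣ d) (h3d : ¬ 3 ∣ d)
    (ψ : (ZMod d)ˣ →* ℤˣ) (hψ : ψ (-1) = 1) : ∃ k0 : ℕ, ∀ (m n : ℕ) (hmn : m ≤ n), k0 ≤ m + 1 →
      ∀ (Ω : Type) [Field Ω] [CharP Ω 3] (ξ z : Ω), IsPrimitiveRoot ξ d → IsPrimitiveRoot z (p ^ (n + 1)) →
      ∀ χ : (ZMod (p ^ (n + 1)))ˣ →* Ωˣ, χ (-1) = 1 →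
      (∃ u, ZMod.unitsMap (pow_dvd_pow p (Nat.succ_le_succ hmn)) u = 1 ∧ χ u ≠ 1) →
        ∑ u : (ZMod (p ^ (n + 1)))ˣ, (χ u : Ω) * ∑ t : (ZMod d)ˣ, (((ψ t : ℤˣ) : ℤ) : Ω) *
          (ξ ^ (t : ZMod d).val * z ^ (u : ZMod (p ^ (n + 1))).val /
            (1 - ξ ^ (t : ZMod d).val * z ^ (u : ZMod (p ^ (n + 1))).val) ^ 2) ≠ 0 := by
  have : Fact (Nat.Prime 3) := ⟨Nat.prime_three⟩
  have hp : p.Prime := Fact.out
  obtain ⟨k0, hk0⟩ := nv2 (l := 3) (p := p) (d := d) (by norm_num) (by omega) (by omega)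
    ((Nat.Prime.coprime_iff_not_dvd hp).2 hpd) ((Nat.Prime.coprime_iff_not_dvd Nat.prime_three).2 h3d)
  refine ⟨k0, fun m n hmn hkm Ω _ _ ξ z hξ hz χ hev hχ => ?_⟩
  exact hk0 m n hmn hkm Ω ξ z hξ hz (psiO ψ Ω) (by
    show Units.map _ (ψ (-1)) = 1
    rw [hψ, map_one]) χ hev hχ

/-- twisted non vanishing in characteristic three for `ψ` odd, all levels -/
theorem nvii_lvl {p d : ℕ} [Fact p.Prime] [NeZero d] (hp5 : 5 ≤ p) (hpd : ¬ p ∣ d) (h3d : ¬ 3 ∣ d)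
    (ψ : (ZMod d)ˣ →* ℤˣ) (hψ : ψ (-1) = -1) : ∃ k0 : ℕ, ∀ (m n : ℕ) (hmn : m ≤ n), k0 ≤ m + 1 →
      ∀ (Ω : Type) [Field Ω] [CharP Ω 3] (ξ z : Ω), IsPrimitiveRoot ξ d → IsPrimitiveRoot z (p ^ (n + 1)) →
      ∀ χ : (ZMod (p ^ (n + 1)))ˣ →* Ωˣ, χ (-1) = 1 →
      (∃ u, ZMod.unitsMap (pow_dvd_pow p (Nat.succ_le_succ hmn)) u = 1 ∧ χ u ≠ 1) →
        ∑ u : (ZMod (p ^ (n + 1)))ˣ, (χ u : Ω) * ∑ t : (ZMod d)ˣ, (((ψ t : ℤˣ) : ℤ) : Ω) *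
          (ξ ^ (t : ZMod d).val * z ^ (u : ZMod (p ^ (n + 1))).val /
            (1 - ξ ^ (t : ZMod d).val * z ^ (u : ZMod (p ^ (n + 1))).val)) ≠ 0 := by
  have : Fact (Nat.Prime 3) := ⟨Nat.prime_three⟩
  have hp : p.Prime := Fact.out
  obtain ⟨k0, hk0⟩ := nv1 (l := 3) (p := p) (d := d) (by norm_num) (by omega) (by omega)
    ((Nat.Prime.coprime_iff_not_dvd hp).2 hpd) ((Nat.Prime.coprime_iff_not_dvd Nat.prime_three).2 h3d)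
  refine ⟨k0, fun m n hmn hkm Ω _ _ ξ z hξ hz χ hev hχ => ?_⟩
  exact hk0 m n hmn hkm Ω ξ z hξ hz (psiO ψ Ω) (by
    show Units.map _ (ψ (-1)) = -1
    rw [hψ]
    ext
    simp) χ hev hχ

theorem nvi {p d : ℕ} [Fact p.Prime] [NeZero d] (hp5 : 5 ≤ p) (hpd : p.Coprime d) (h3d : ¬ 3 ∣ d)
    (ψ : (ZMod d)ˣ →* ℤˣ) (hψ : ψ (-1) = 1) : ∃ k0 : ℕ, NVi p k0 d ψ := by
  obtain ⟨k0, hk0⟩ := nvi_lvl hp5 ((Nat.Prime.coprime_iff_not_dvd Fact.out).1 hpd) h3d ψ hψ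
  exact ⟨k0, hk0⟩

theorem nvii {p d : ℕ} [Fact p.Prime] [NeZero d] (hp5 : 5 ≤ p) (hpd : p.Coprime d) (h3d : ¬ 3 ∣ d)
    (ψ : (ZMod d)ˣ →* ℤˣ) (hψ : ψ (-1) = -1) : ∃ k0 : ℕ, NVii p k0 d ψ := by
  obtain ⟨k0, hk0⟩ := nvii_lvl hp5 ((Nat.Prime.coprime_iff_not_dvd Fact.out).1 hpd) h3d ψ hψ
  exact ⟨k0, hk0⟩

end H46TS
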