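import Pool.Agent.H46.TS.Ds

/-!
ROW TC (symmetry and Frobenius for `Fc`).
-/

set_option autoImplicit false

namespace H46TS

open Finset

theorem Fc_inv {Ω : Type*} [Field Ω] {M : ℕ} [NeZero M] {c : ZMod M → Ω} (hodd : ∀ a, c (-a) = - c a)
    (h0 : c 0 = 0) {x : Ω} (hx : x ≠ 0) : Fc c x⁻¹ = Fc c x := by
  unfold Fc
  by_cases hM : x ^ M = 1
  · rw [inv_pow, hM, inv_one, sub_self, div_zero, div_zero]
  have hxM : x ^ M ≠ 0 := pow_ne_zero _ hx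
  have h1 : (1 : Ω) - x ^ M ≠ 0 := fun h => hM (sub_eq_zero.1 h).symm
  have h2 : (1 : Ω) - (x⁻¹) ^ M ≠ 0 := by
    rw [inv_pow]
    intro h
    apply hM
    have h3 : (x ^ M)⁻¹ = 1 := (sub_eq_zero.1 h).symm
    exact inv_eq_one.1 h3
  rw [div_eq_div_iff h2 h1]
  obtain ⟨K, hK⟩ : ∃ K, M = K + 1 := Nat.exists_eq_succ_of_ne_zero (NeZero.ne M)
  have hsum : (∑ n ∈ range M, c (n : ZMod M) * x⁻¹ ^ n) * x ^ M = - ∑ n ∈ range M, c (n : ZMod M) * x ^ n := by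
    have e1 : ∀ g : ℕ → Ω, g 0 = 0 → ∑ n ∈ range M, g n = ∑ n ∈ range K, g (n + 1) := by
      intro g hg
      rw [hK, Finset.sum_range_succ', hg, add_zero]
    rw [e1 (fun n => c (n : ZMod M) * x⁻¹ ^ n) (by simp [h0]), e1 (fun n => c (n : ZMod M) * x ^ n) (by simp [h0]),
      ← Finset.sum_range_reflect, sum_mul, ← sum_neg_distrib]
    refine sum_congr rfl fun n hn => ?_
    have hnK := mem_range.1 hn
    have e2 : ((K - 1 - n + 1 : ℕ) : ZMod M) = - ((n + 1 : ℕ) : ZMod M) := by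
      rw [eq_neg_iff_add_eq_zero, ← Nat.cast_add]
      have e3 : K - 1 - n + 1 + (n + 1) = M := by omega
      rw [e3, ZMod.natCast_self]
    have e4 : x⁻¹ ^ (K - 1 - n + 1) * x ^ M = x ^ (n + 1) := by
      have e5 : M = (K - 1 - n + 1) + (n + 1) := by omega
      rw [e5, pow_add x, ← mul_assoc, ← mul_pow, inv_mul_cancel₀ hx, one_pow, one_mul]
    show c _ * _ * _ = - (c _ * _)
    rw [e2, hodd, mul_assoc, e4, neg_mul]
  have h5 : (1 - x⁻¹ ^ M) * x ^ M = x ^ M - 1 := by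
    rw [sub_mul, one_mul, inv_pow, inv_mul_cancel₀ hxM]
  apply mul_right_cancel₀ hxM
  calc (∑ n ∈ range M, c (n : ZMod M) * x⁻¹ ^ n) * (1 - x ^ M) * x ^ M
      = ((∑ n ∈ range M, c (n : ZMod M) * x⁻¹ ^ n) * x ^ M) * (1 - x ^ M) := by ring
    _ = (∑ n ∈ range M, c (n : ZMod M) * x ^ n) * (x ^ M - 1) := by rw [hsum]; ring
    _ = (∑ n ∈ range M, c (n : ZMod M) * x ^ n) * ((1 - x⁻¹ ^ M) * x ^ M) := by rw [h5]
    _ = _ := by ring

theorem Fc_frob {Ω : Type*} [Field Ω] {l : ℕ} [Fact l.Prime] [CharP Ω l] {M s : ℕ} {c : ZMod M → Ω}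
    (hc : ∀ a, c a ^ (l ^ s) = c a) (i : ℕ) (x : Ω) : Fc c x ^ ((l ^ s) ^ i) = Fc c (x ^ ((l ^ s) ^ i)) := by
  have hci : ∀ a, c a ^ ((l ^ s) ^ i) = c a := by
    intro a
    induction i with
    | zero => simp
    | succ i ih => rw [pow_succ, pow_mul, ih, hc]
  unfold Fc
  rw [← pow_mul] at hci ⊢
  rw [div_pow, sum_pow_char_pow, sub_pow_char_pow, one_pow]
  congr 1
  · refine sum_congr rfl fun n _ => ?_
    rw [mul_pow, hci, ← pow_mul, ← pow_mul, mul_comm n]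
  · rw [← pow_mul, ← pow_mul, mul_comm M]

end H46TS
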