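import Pool.Agent.H46.TS.TD
import Pool.Agent.H46.TS.TE

/-!
ROW TF (the relation). ADAPT the private lemma `ZA_rel` (and the private lemmas `ZA_pow`, `ZA_unit`, `ZA_val`, copied verbatim) in
`Pool/Agent/H55/T3/ZA.lean` (there `l = 3`, `f = Fr3`): `Fr3_inv` is replaced by `hf1`, `av2_3` by `av2` (row TD), `cosets3` by `cosets` (row TE).
-/

set_option autoImplicit false

namespace H46TS

open Finset H5SW

theorem TF_pow {p k e : ℕ} (hek : 2 * e ≤ k + 1) (u1 : (ZMod (p ^ (k + 1)))ˣ)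
    (hu1 : (u1 : ZMod (p ^ (k + 1))) = 1 + (p : ZMod (p ^ (k + 1))) ^ (k + 1 - e)) (t : ℕ) :
    ((u1 ^ t : (ZMod (p ^ (k + 1)))ˣ) : ZMod (p ^ (k + 1))) =
      1 + (p : ZMod (p ^ (k + 1))) ^ (k + 1 - e) * t := by
  have hz : (p : ZMod (p ^ (k + 1))) ^ (k + 1) = 0 := by
    have := ZMod.natCast_self (p ^ (k + 1))
    rwa [Nat.cast_pow] at this
  have hsq : (p : ZMod (p ^ (k + 1))) ^ (k + 1 - e) * (p : ZMod (p ^ (k + 1))) ^ (k + 1 - e) = 0 := by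
    rw [← pow_add, show k + 1 - e + (k + 1 - e) = (k + 1) + (k + 1 - 2 * e) by omega,
      pow_add (p : ZMod (p ^ (k + 1))) (k + 1) (k + 1 - 2 * e), hz, zero_mul]
  induction t with
  | zero => simp
  | succ t ih =>
    rw [pow_succ u1 t, Units.val_mul, ih, hu1]
    push_cast
    linear_combination (t : ZMod (p ^ (k + 1))) * hsq

theorem TF_unit {p k m : ℕ} (hm : p ∣ m) :
    ∃ u : (ZMod (p ^ (k + 1)))ˣ, (u : ZMod (p ^ (k + 1))) = ((1 + m : ℕ) : ZMod (p ^ (k + 1))) := by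
  refine ⟨ZMod.unitOfCoprime (1 + m) ?_, ZMod.coe_unitOfCoprime _ _⟩
  apply Nat.Coprime.pow_right
  obtain ⟨c, rfl⟩ := hm
  simp

theorem TF_val {Ω : Type} [Field Ω] {z : Ω} {f : ℕ} (hz : z ^ f = 1) (N : ℕ) (a : ZMod f)
    (h : a = (N : ZMod f)) : z ^ a.val = z ^ N := by
  rw [h, ZMod.val_natCast, ← pow_eq_pow_mod N hz]

theorem rel {l p k e s : ℕ} [Fact l.Prime] [Fact p.Prime] (hp2 : p ≠ 2) (hlp : l ≠ p) (hQ : QD l p e s)
    (hek : 2 * e ≤ k + 1) (hek' : e ≤ k) {E : Finset ℤ_[p]ˣ} (hE : EH p E) {Ω : Type} [Field Ω] [CharP Ω l]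
    {z : Ω} (hz : IsPrimitiveRoot z (p ^ (k + 1))) {f : Ω → Ω} (hf1 : ∀ x, x ≠ 0 → f x⁻¹ = f x)
    (hf2 : ∀ (i : ℕ) (x : Ω), f x ^ ((l ^ s) ^ i) = f (x ^ ((l ^ s) ^ i)))
    (χ : (ZMod (p ^ (k + 1)))ˣ →* Ωˣ) (hev : χ (-1) = 1) (hprim : Prim χ)
    (h0 : ∑ u ∈ Hf (p ^ (k + 1)), (χ u : Ω) * f (z ^ (u : ZMod (p ^ (k + 1))).val) = 0) :
    ∃ ρ : Ω, ρ ^ (p ^ e) = 1 ∧
      ∀ b : ℕ, ∑ x ∈ E, (χ (red (k + 1) x) : Ω) * ∑ t ∈ range (p ^ e),
          ρ ^ t * f (z ^ ((1 + p ^ e * b) * (1 + p ^ (k + 1 - e) * t) *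
            (PadicInt.toZModPow (k + 1) (x : ℤ_[p])).val)) = 0 := by
  classical
  have he1 := hQ.e1
  have hz1 : z ^ (p ^ (k + 1)) = 1 := hz.pow_eq_one
  have hzne : z ≠ 0 := by
    rintro rfl
    rw [zero_pow (pow_ne_zero _ (Nat.Prime.ne_zero Fact.out))] at hz1
    exact zero_ne_one hz1
  have hzf : (p : ZMod (p ^ (k + 1))) ^ (k + 1) = 0 := by
    have := ZMod.natCast_self (p ^ (k + 1))
    rwa [Nat.cast_pow] at this
  obtain ⟨u1, hu1⟩ := TF_unit (p := p) (k := k) (m := p ^ (k + 1 - e)) (dvd_pow_self p (by omega))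
  have hu1' : (u1 : ZMod (p ^ (k + 1))) = 1 + (p : ZMod (p ^ (k + 1))) ^ (k + 1 - e) := by
    rw [hu1]
    push_cast
    ring
  have hpow := TF_pow hek u1 hu1'
  have hone : u1 ^ (p ^ e) = 1 := by
    apply Units.ext
    rw [hpow, Nat.cast_pow, ← pow_add, show k + 1 - e + e = k + 1 by omega, hzf, add_zero,
      Units.val_one]
  refine ⟨(χ u1 : Ω), ?_, fun b => ?_⟩
  · rw [← Units.val_pow_eq_pow_val, ← map_pow, hone, map_one, Units.val_one]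
  · obtain ⟨a, ha⟩ := TF_unit (p := p) (k := k) (m := p ^ e * b)
      ((dvd_pow_self p (by omega)).trans (dvd_mul_right _ _))
    have h1 := av2 hp2 hlp hQ hek' hz1 hf1 hf2 χ hev h0 a
    have hneg : ∀ u : (ZMod (p ^ (k + 1)))ˣ,
        (χ (-u * a⁻¹) : Ω) * f (z ^ ((-u : (ZMod (p ^ (k + 1)))ˣ) : ZMod (p ^ (k + 1))).val) =
          (χ (u * a⁻¹) : Ω) * f (z ^ (u : ZMod (p ^ (k + 1))).val) := by
      intro u
      have e1 : χ (-u * a⁻¹) = χ (u * a⁻¹) := by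
        rw [show -u * a⁻¹ = (-1) * (u * a⁻¹) by simp, map_mul, hev, one_mul]
      have e2 : z ^ ((-u : (ZMod (p ^ (k + 1)))ˣ) : ZMod (p ^ (k + 1))).val =
          (z ^ (u : ZMod (p ^ (k + 1))).val)⁻¹ := by
        apply eq_inv_of_mul_eq_one_left
        rw [← pow_add, ← TF_val hz1 _ (((-u : (ZMod (p ^ (k + 1)))ˣ) : ZMod (p ^ (k + 1))) +
          (u : ZMod (p ^ (k + 1)))) (by push_cast; rw [ZMod.natCast_zmod_val, ZMod.natCast_zmod_val])]
        rw [Units.val_neg, neg_add_cancel, ZMod.val_zero, pow_zero]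
      rw [e1, e2, hf1 _ (pow_ne_zero _ hzne)]
    have h2 := cosets hp2 hQ hek hE χ hev hprim a u1 hu1'
      (fun u => (χ (u * a⁻¹) : Ω) * f (z ^ (u : ZMod (p ^ (k + 1))).val)) hneg
    rw [h1] at h2
    rw [h2]
    refine Finset.sum_congr rfl fun x _ => ?_
    rw [Finset.mul_sum]
    refine Finset.sum_congr rfl fun t _ => ?_
    have e3 : χ (a * red (k + 1) x * u1 ^ t * a⁻¹) = χ (red (k + 1) x) * χ u1 ^ t := by
      rw [show a * red (k + 1) x * u1 ^ t * a⁻¹ = red (k + 1) x * u1 ^ t by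
        rw [mul_assoc a, mul_inv_cancel_comm], map_mul, map_pow]
    have e4 : z ^ ((a * red (k + 1) x * u1 ^ t : (ZMod (p ^ (k + 1)))ˣ) : ZMod (p ^ (k + 1))).val =
        z ^ ((1 + p ^ e * b) * (1 + p ^ (k + 1 - e) * t) *
            (PadicInt.toZModPow (k + 1) (x : ℤ_[p])).val) := by
      apply TF_val hz1
      rw [Units.val_mul, Units.val_mul, hpow, ha]
      push_cast
      rw [ZMod.natCast_zmod_val]
      show _ * PadicInt.toZModPow (k + 1) (x : ℤ_[p]) * _ = _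
      ring
    rw [e3, e4, Units.val_mul, Units.val_pow_eq_pow_val]
    ring

end H46TS
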