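import Pool.Agent.H46.TS.Ds

/-!
ROW TG (sums of `Fc` over the translates by roots of unity).
PROOF. `Fc_big`: `∑_{n<P*M} c n x^n = (∑_{n<M} c n x^n) * ∑_{i<P} x^(M i)` (`Finset.sum_range_mul`/`Finset.sum_nat_mod`, or induction on `P`, using that
`c ((M * i + n : ℕ) : ZMod M) = c n`), and `1 - x^(P*M) = (1 - x^M) * ∑_{i<P} (x^M)^i` (`mul_neg_geom_sum`); the second factor is not zero as `x^(P*M) ≠ 1`.
`poly`: take `N m = if ρ * ω^m = 1 then P * c m else 0`. For `X^(P*M) ≠ 1` put `x = ω^t X` in `Fc_big` (`x^(P*M) = X^(P*M)`), exchange the two sums, and use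
`∑_{t<P} (ρ ω^m)^t = P` if `ρ ω^m = 1` and `0` otherwise (`geom_sum_mul`, `(ρ ω^m)^P = 1`). Non vanishing: `c a ≠ 0`; `ρ⁻¹ = ω^r` for some `r < P`
(`IsPrimitiveRoot.eq_pow_of_pow_eq_one`); by the Chinese remainder theorem (`Nat.chineseRemainder`, `Nat.chineseRemainder_lt_mul`) there is `m < P*M`,
`m ≡ r mod P`, `m ≡ a.val mod M`; then `ρ ω^m = 1`, `N m = P * c a ≠ 0`.
`fib`: with `ρ = 1`: `∑_{i<P} Fc c (η^i X) = (∑_{n<P*M} c n X^n (∑_i η^(i n))) / (1 - X^(P*M))`, the inner sum is `P` if `P ∣ n` and `0` otherwise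
(`IsPrimitiveRoot.pow_eq_one_iff_dvd`); write `n = P * m`, `m < M`.
-/

set_option autoImplicit false

namespace H46TS

open Finset

theorem TG_aux {Ω : Type*} [Field Ω] {M : ℕ} [NeZero M] (c : ZMod M → Ω) (x : Ω) (P : ℕ) :
    (∑ n ∈ range (P * M), c (n : ZMod M) * x ^ n) * (1 - x ^ M) =
      (∑ n ∈ range M, c (n : ZMod M) * x ^ n) * (1 - x ^ (P * M)) := by
  induction P with
  | zero => simp
  | succ P ih =>
    have h1 : (P + 1) * M = P * M + M := by ring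
    have h2 : ∑ n ∈ range M, c ((P * M + n : ℕ) : ZMod M) * x ^ (P * M + n) =
        x ^ (P * M) * ∑ n ∈ range M, c (n : ZMod M) * x ^ n := by
      rw [mul_sum]
      refine sum_congr rfl fun n _ => ?_
      have h3 : ((P * M + n : ℕ) : ZMod M) = (n : ZMod M) := by
        push_cast
        rw [ZMod.natCast_self, mul_zero, zero_add]
      rw [h3, pow_add]
      ring
    rw [h1, sum_range_add, h2, add_mul, ih, pow_add]
    ring

theorem Fc_big {Ω : Type*} [Field Ω] {M : ℕ} [NeZero M] (c : ZMod M → Ω) {P : ℕ} {x : Ω}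
    (hx : x ^ (P * M) ≠ 1) :
    Fc c x = (∑ n ∈ range (P * M), c (n : ZMod M) * x ^ n) / (1 - x ^ (P * M)) := by
  have h1 : 1 - x ^ (P * M) ≠ 0 := fun h => hx (sub_eq_zero.1 h).symm
  have h2 : 1 - x ^ M ≠ 0 := by
    intro h
    apply hx
    rw [mul_comm, pow_mul, ← sub_eq_zero.1 h, one_pow]
  unfold Fc
  rw [div_eq_div_iff h2 h1]
  exact (TG_aux c x P).symm

theorem TG_geom {Ω : Type*} [Field Ω] {P : ℕ} {z : Ω} (hz : z ^ P = 1) [Decidable (z = 1)] :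
    ∑ t ∈ range P, z ^ t = if z = 1 then (P : Ω) else 0 := by
  split_ifs with h
  · rw [h]
    simp
  · rw [geom_sum_eq h, hz, sub_self, zero_div]

theorem TG_sum {Ω : Type*} [Field Ω] {P M : ℕ} [NeZero M] {ω ρ : Ω} (hω : ω ^ P = 1) (hρ : ρ ^ P = 1)
    (c : ZMod M → Ω) [∀ m : ℕ, Decidable (ρ * ω ^ m = 1)] {X : Ω} (hX : X ^ (P * M) ≠ 1) :
    ∑ t ∈ range P, ρ ^ t * Fc c (ω ^ t * X) =
        (∑ m ∈ range (P * M), (if ρ * ω ^ m = 1 then (P : Ω) * c (m : ZMod M) else 0) * X ^ m) /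
          (1 - X ^ (P * M)) := by
  have h1 : ∀ t : ℕ, (ω ^ t * X) ^ (P * M) = X ^ (P * M) := by
    intro t
    rw [mul_pow, ← pow_mul, mul_left_comm, pow_mul, hω, one_pow, one_mul]
  have h2 : ∀ t ∈ range P, ρ ^ t * Fc c (ω ^ t * X) =
      (∑ n ∈ range (P * M), c (n : ZMod M) * X ^ n * (ρ * ω ^ n) ^ t) / (1 - X ^ (P * M)) := by
    intro t _
    rw [Fc_big c (P := P) (by rw [h1]; exact hX), h1, mul_div_assoc', mul_sum]
    congr 1
    refine sum_congr rfl fun n _ => ?_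
    rw [mul_pow, mul_pow, ← pow_mul, ← pow_mul, mul_comm n t]
    ring
  rw [sum_congr rfl h2, ← sum_div, sum_comm]
  congr 1
  refine sum_congr rfl fun n _ => ?_
  rw [← mul_sum]
  have h3 : (ρ * ω ^ n) ^ P = 1 := by
    rw [mul_pow, hρ, ← pow_mul, mul_comm n P, pow_mul, hω, one_pow, one_mul]
  rw [TG_geom h3]
  split_ifs
  · ring
  · ring

theorem poly {Ω : Type*} [Field Ω] {P M : ℕ} [NeZero M] (hP : 0 < P) (hPM : P.Coprime M)
    (hPΩ : ((P : ℕ) : Ω) ≠ 0) {ω ρ : Ω} (hω : IsPrimitiveRoot ω P) (hρ : ρ ^ P = 1) {c : ZMod M → Ω}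
    (hc : ∃ a, c a ≠ 0) :
    ∃ N : ℕ → Ω, (∃ m < P * M, N m ≠ 0) ∧ ∀ X : Ω, X ^ (P * M) ≠ 1 →
      ∑ t ∈ range P, ρ ^ t * Fc c (ω ^ t * X) =
        (∑ m ∈ range (P * M), N m * X ^ m) / (1 - X ^ (P * M)) := by
  classical
  refine ⟨fun m => if ρ * ω ^ m = 1 then (P : Ω) * c (m : ZMod M) else 0, ?_, fun X hX =>
    TG_sum hω.pow_eq_one hρ c hX⟩
  obtain ⟨a, ha⟩ := hc
  have : NeZero P := ⟨hP.ne'⟩
  have hρ0 : ρ ≠ 0 := by
    rintro rfl
    rw [zero_pow hP.ne'] at hρ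
    exact zero_ne_one hρ
  obtain ⟨r, _, hr⟩ := hω.eq_pow_of_pow_eq_one (show (ρ⁻¹) ^ P = 1 by rw [inv_pow, hρ, inv_one])
  obtain ⟨m, hm1, hm2⟩ : ∃ m < P * M, m ≡ r [MOD P] ∧ m ≡ a.val [MOD M] :=
    ⟨(Nat.chineseRemainder hPM r a.val : ℕ), Nat.chineseRemainder_lt_mul hPM r a.val hP.ne' (NeZero.ne M),
      (Nat.chineseRemainder hPM r a.val).2⟩
  refine ⟨m, hm1, ?_⟩
  have h1 : ω ^ m = ω ^ r := by
    have h4 : m % P = r % P := hm2.1
    rw [← pow_mod_orderOf ω m, ← pow_mod_orderOf ω r, ← hω.eq_orderOf, h4]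
  have h2 : (m : ZMod M) = a := by
    have h3 := (ZMod.natCast_eq_natCast_iff m a.val M).2 hm2.2
    rw [h3, ZMod.natCast_zmod_val]
  have h3 : ρ * ω ^ m = 1 := by rw [h1, hr, mul_inv_cancel₀ hρ0]
  simp only [h3, if_true, h2]
  exact mul_ne_zero hPΩ ha

theorem fib {Ω : Type*} [Field Ω] {P M : ℕ} [NeZero M] (hP : 0 < P) {η : Ω} (hη : IsPrimitiveRoot η P)
    (c : ZMod M → Ω) {X : Ω} (hX : X ^ (P * M) ≠ 1) :
    ∑ i ∈ range P, Fc c (η ^ i * X) = (P : Ω) * Fc (fun a => c ((P : ZMod M) * a)) (X ^ P) := by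
  classical
  have h1 := TG_sum (ρ := 1) hη.pow_eq_one (one_pow P) c hX
  simp only [one_pow, one_mul] at h1
  rw [h1]
  unfold Fc
  rw [← pow_mul, mul_div_assoc']
  congr 1
  rw [mul_sum]
  symm
  refine sum_of_injOn (fun m => P * m) ?_ ?_ ?_ ?_
  · intro x _ y _ h
    exact Nat.eq_of_mul_eq_mul_left hP h
  · intro m hm
    rw [coe_range, Set.mem_Iio] at hm ⊢
    exact Nat.mul_lt_mul_of_pos_left hm hP
  · intro n hn hn'
    have h2 : ¬ η ^ n = 1 := by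
      intro h
      obtain ⟨m, hm⟩ := (hη.pow_eq_one_iff_dvd n).1 h
      apply hn'
      refine ⟨m, ?_, hm.symm⟩
      rw [coe_range, Set.mem_Iio]
      rw [mem_range, hm] at hn
      exact Nat.lt_of_mul_lt_mul_left hn
    rw [if_neg h2, zero_mul]
  · intro m _
    have h2 : η ^ (P * m) = 1 := by rw [pow_mul, hη.pow_eq_one, one_pow]
    simp only [h2, if_true]
    push_cast
    rw [pow_mul]
    ring

end H46TS
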