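import Pool.Agent.H46.TS.Ds
import Mathlib.Algebra.MonoidAlgebra.MapDomain
import Mathlib.GroupTheory.QuotientGroup.Basic

/-!
ROW TH (group algebra argument).
PROOF. `nzd`: `a = a * single g 1`, so `a.coeff h = a.coeff (h - g)` for all `h` (coefficient of a product with a single, `AddMonoidAlgebra.mul_single_apply` or
similar), so `a.coeff (h + n • g) = a.coeff h` for all `n : ℕ`; if `a.coeff h ≠ 0` the infinitely many elements `h + n • g` (distinct by `hg`) lie in the finite
support of `a`, contradiction (`Set.infinite_of_injective_forall_mem` or `Infinite.exists_ne_map_eq`).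
`final`: let `φ = AddMonoidAlgebra.mapDomainRingHom Ω (QuotientAddGroup.mk' (AddSubgroup.zmultiples (Q • y i0)))`. Apply `φ` to the relation: for `i ≠ i0` the
product contains the factor `j = i0`, which becomes `1 - single (Q • ȳ i0) 1 = 1 - single 0 1 = 0`. So `φ (∑_m ...) * ∏_{j ≠ i0} (1 - single (Q • ȳ j) 1) = 0`, and by
`nzd` (induction over the finset; `n • (Q • ȳ j) = 0` means `(n Q) • y j = (k Q) • y i0`, so `n Q = 0` by `hy`, `Q ≠ 0`) the first factor
`∑_m single (m • ȳ i0) (N i0 m)` is `0`. Coefficient at `m0 • ȳ i0`: `m • ȳ i0 = m0 • ȳ i0` iff `(m - m0) • y i0 ∈ zmultiples (Q • y i0)` iff `Q ∣ m - m0` (by `h1`) iff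
`m = m0`.
-/

set_option autoImplicit false

namespace H46TS

open Finset

theorem nzd {R Γ : Type*} [CommRing R] [AddCommGroup Γ] (g : Γ) (hg : ∀ n : ℕ, n • g = 0 → n = 0)
    (a : AddMonoidAlgebra R Γ) (h : a * (1 - AddMonoidAlgebra.single g 1) = 0) : a = 0 := by
  have h1 : a = a * AddMonoidAlgebra.single g 1 := by
    rw [mul_sub, mul_one] at h
    exact sub_eq_zero.1 h
  have h2 : ∀ x, a.coeff (x + g) = a.coeff x := by
    intro x
    conv_lhs => rw [h1]
    rw [AddMonoidAlgebra.coeff_mul_single_apply, add_neg_cancel_right, mul_one]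
  have h3 : ∀ (n : ℕ) (x : Γ), a.coeff (x + n • g) = a.coeff x := by
    intro n
    induction n with
    | zero => intro x; rw [zero_smul, add_zero]
    | succ n ih =>
      intro x
      rw [succ_nsmul, ← add_assoc, h2, ih]
  apply AddMonoidAlgebra.ext
  ext x
  by_contra hx
  have hx' : a.coeff x ≠ 0 := hx
  have hinj : Function.Injective fun n : ℕ => x + n • g := by
    intro n m hnm
    have h4 : n • g = m • g := add_left_cancel hnm
    rcases le_total n m with hle | hle
    · have h5 : (m - n) • g = 0 := by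
        have h6 : m • g = (m - n) • g + n • g := by rw [← add_smul, Nat.sub_add_cancel hle]
        rw [h4] at h6
        exact left_eq_add.1 (h6.trans (add_comm _ _))
      have := hg _ h5
      omega
    · have h5 : (n - m) • g = 0 := by
        have h6 : n • g = (n - m) • g + m • g := by rw [← add_smul, Nat.sub_add_cancel hle]
        rw [← h4] at h6
        exact left_eq_add.1 (h6.trans (add_comm _ _))
      have := hg _ h5
      omega
  refine Set.not_infinite.2 a.coeff.support.finite_toSet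
    (Set.infinite_of_injective_forall_mem hinj fun n => ?_)
  rw [Finset.mem_coe, Finsupp.mem_support_iff, h3]
  exact hx'

theorem nzd_prod {R Γ : Type*} [CommRing R] [AddCommGroup Γ] {ι : Type*} (s : Finset ι)
    (g : ι → Γ) (hg : ∀ i ∈ s, ∀ n : ℕ, n • g i = 0 → n = 0) (a : AddMonoidAlgebra R Γ)
    (h : a * ∏ j ∈ s, (1 - AddMonoidAlgebra.single (g j) 1) = 0) : a = 0 := by
  classical
  induction s using Finset.induction_on with
  | empty => rwa [prod_empty, mul_one] at h
  | insert i s hi ih =>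
    refine ih (fun j hj => hg j (mem_insert_of_mem hj)) ?_
    rw [prod_insert hi, mul_comm (1 - _), ← mul_assoc] at h
    exact nzd (g i) (hg i (mem_insert_self i s)) _ h

theorem final {Ω Γ : Type*} [Field Ω] [AddCommGroup Γ] {ι : Type*} [Fintype ι] [DecidableEq ι] {Q : ℕ}
    (y : ι → Γ) (i0 : ι) (h1 : ∀ m : ℤ, m • y i0 = 0 → m = 0)
    (hy : ∀ i, i ≠ i0 → ∀ n m : ℤ, n • y i = m • y i0 → n = 0) (N : ι → Fin Q → Ω)
    (hrel : ∑ i, (∑ m : Fin Q, AddMonoidAlgebra.single 0 (N i m) * AddMonoidAlgebra.single (y i) 1 ^ (m : ℕ)) *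
      ∏ j ∈ univ.erase i, (1 - AddMonoidAlgebra.single (y j) 1 ^ Q) = (0 : AddMonoidAlgebra Ω Γ)) :
    ∀ m, N i0 m = 0 := by
  classical
  intro m0
  have hQ : Q ≠ 0 := by
    rintro rfl
    exact m0.elim0
  set H : AddSubgroup Γ := AddSubgroup.zmultiples (Q • y i0) with hH
  set φ : AddMonoidAlgebra Ω Γ →+* AddMonoidAlgebra Ω (Γ ⧸ H) :=
    AddMonoidAlgebra.mapDomainRingHom Ω (QuotientAddGroup.mk' H) with hφ
  have hs : ∀ (g : Γ) (r : Ω), φ (AddMonoidAlgebra.single g r) =
      AddMonoidAlgebra.single ((g : Γ) : Γ ⧸ H) r := by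
    intro g r
    rw [hφ, AddMonoidAlgebra.mapDomainRingHom_apply, AddMonoidAlgebra.mapDomain_single]
    rfl
  have hf : ∀ j, φ (1 - AddMonoidAlgebra.single (y j) 1 ^ Q) =
      1 - AddMonoidAlgebra.single (((Q • y j : Γ)) : Γ ⧸ H) 1 := by
    intro j
    rw [AddMonoidAlgebra.single_pow, one_pow, map_sub, map_one, hs]
  have hf0 : φ (1 - AddMonoidAlgebra.single (y i0) 1 ^ Q) = 0 := by
    rw [hf]
    have h2 : (((Q • y i0 : Γ)) : Γ ⧸ H) = 0 := by
      rw [QuotientAddGroup.eq_zero_iff]
      exact AddSubgroup.mem_zmultiples _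
    rw [h2, AddMonoidAlgebra.one_def, sub_self]
  have h3 := congrArg φ hrel
  rw [map_sum, map_zero, Finset.sum_eq_single i0] at h3
  · rw [map_mul, map_prod] at h3
    simp only [hf] at h3
    have h4 := nzd_prod (univ.erase i0) (fun j => (((Q • y j : Γ)) : Γ ⧸ H)) (by
      intro i hi n hn
      have hii : i ≠ i0 := (Finset.mem_erase.1 hi).1
      have h5 : (((n • (Q • y i) : Γ)) : Γ ⧸ H) = 0 := hn
      rw [QuotientAddGroup.eq_zero_iff] at h5
      obtain ⟨k, hk⟩ := AddSubgroup.mem_zmultiples_iff.1 h5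
      have h6 := hy i hii ((n * Q : ℕ) : ℤ) (k * (Q : ℤ)) (by
        rw [mul_smul, natCast_zsmul, natCast_zsmul, hk, mul_smul])
      have h7 : n * Q = 0 := by exact_mod_cast h6
      exact (Nat.mul_eq_zero.1 h7).resolve_right hQ) _ h3
    have h5 : ∀ m : Fin Q, φ (AddMonoidAlgebra.single 0 (N i0 m) *
        AddMonoidAlgebra.single (y i0) 1 ^ (m : ℕ)) =
        AddMonoidAlgebra.single ((((m : ℕ) • y i0 : Γ)) : Γ ⧸ H) (N i0 m) := by
      intro m
      rw [AddMonoidAlgebra.single_pow, one_pow, AddMonoidAlgebra.single_mul_single, zero_add,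
        mul_one, hs]
    rw [map_sum] at h4
    simp only [h5] at h4
    have h6 := congrArg (fun z : AddMonoidAlgebra Ω (Γ ⧸ H) =>
      z.coeff ((((m0 : ℕ) • y i0 : Γ)) : Γ ⧸ H)) h4
    simp only [AddMonoidAlgebra.coeff_sum, Finsupp.finset_sum_apply,
      AddMonoidAlgebra.coeff_single, AddMonoidAlgebra.coeff_zero, Finsupp.coe_zero,
      Pi.zero_apply] at h6
    rw [Finset.sum_eq_single m0] at h6
    · rwa [Finsupp.single_eq_same] at h6
    · intro m _ hm
      refine Finsupp.single_eq_of_ne ?_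
      intro h7
      apply hm
      rw [QuotientAddGroup.eq] at h7
      obtain ⟨k, hk⟩ := AddSubgroup.mem_zmultiples_iff.1 h7
      have h8 := h1 (k * Q - ((m : ℕ) : ℤ) + ((m0 : ℕ) : ℤ)) (by
        rw [add_smul, sub_smul, mul_smul, natCast_zsmul, hk, natCast_zsmul, natCast_zsmul]
        abel)
      have hm1 := m.2
      have hm2 := m0.2
      apply Fin.ext
      have h9 : k * (Q : ℤ) = ((m : ℕ) : ℤ) - ((m0 : ℕ) : ℤ) := by linarith
      have h10 : k = 0 := by
        by_contra hk0
        have h11 : (Q : ℤ) ≤ |k * (Q : ℤ)| := by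
          rw [abs_mul, Nat.abs_cast]
          have : 1 ≤ |k| := Int.one_le_abs hk0
          nlinarith [Int.natCast_nonneg Q]
        rw [h9] at h11
        have h12 : |((m : ℕ) : ℤ) - ((m0 : ℕ) : ℤ)| < Q := by
          rw [abs_lt]
          constructor <;> omega
        omega
      rw [h10, zero_mul] at h9
      omega
    · intro hm
      exact absurd (Finset.mem_univ _) hm
  · intro i _ hi
    rw [map_mul, map_prod, Finset.prod_eq_zero (Finset.mem_erase.2 ⟨Ne.symm hi, Finset.mem_univ i0⟩)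
      hf0, mul_zero]
  · intro h
    exact absurd (Finset.mem_univ _) h

end H46TS
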