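import Pool.Agent.H46.TS.Ds

/-!
ROW TJa (expansion of the relation). ADAPT `H55T3.ZB_expand` (with `ZB_prod`) in `Pool/Agent/H55/T3/ZB.lean` (there the factors are `1 + Y^P + Y^(2P)`, three terms).
PROOF. For fixed `x = i.1`, `m = i.2.1`: `∑_{g : ι → Fin 2} (if g x = 0 then ∏_y F y (g y) else 0) = ∏_{y ≠ x} ∑_{d : Fin 2} F y d` if `F x 0 = 1`, with
`F y d = (-1)^d * (Y y ^ Q)^d`; `∑_{d : Fin 2} F y d = 1 - Y y ^ Q`.
-/

set_option autoImplicit false

namespace H46TS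

open Finset

/-- the exponent vector -/
def mm {ι : Type} [DecidableEq ι] (Q : ℕ) (i : ι × Fin Q × (ι → Fin 2)) (y : ι) : ℕ :=
  (if y = i.1 then (i.2.1 : ℕ) else 0) + Q * (i.2.2 y : ℕ)

/-- the coefficients -/
def qq {R : Type*} [CommRing R] {ι : Type} [Fintype ι] [DecidableEq ι] (Q : ℕ) (N : ι → Fin Q → R)
    (i : ι × Fin Q × (ι → Fin 2)) : R :=
  if i.2.2 i.1 = 0 then N i.1 i.2.1 * ∏ y, (-1 : R) ^ (i.2.2 y : ℕ) else 0

theorem qq_map {R S : Type*} [CommRing R] [CommRing S] (φ : R →+* S) {ι : Type} [Fintype ι] [DecidableEq ι]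
    (Q : ℕ) (N : ι → Fin Q → R) (i : ι × Fin Q × (ι → Fin 2)) :
    φ (qq Q N i) = qq Q (fun x m => φ (N x m)) i := by
  unfold qq
  split_ifs
  · simp
  · simp

theorem TJa_prod {R : Type*} [CommRing R] {ι : Type} [Fintype ι] [DecidableEq ι] (x : ι)
    (F : ι → Fin 2 → R) (h0 : F x 0 = 1) :
    ∑ g : ι → Fin 2, (if g x = 0 then ∏ y, F y (g y) else 0) = ∏ y ∈ univ.erase x, ∑ d, F y d := by
  have h1 : ∏ y ∈ univ.erase x, ∑ d, F y d =
      ∏ y, ∑ d : Fin 2, (if y = x then (if d = 0 then 1 else 0) else F y d) := by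
    rw [← Finset.mul_prod_erase univ (fun y => ∑ d : Fin 2, (if y = x then (if d = 0 then 1 else 0) else F y d))
      (mem_univ x)]
    have h2 : ∑ d : Fin 2, (if x = x then (if d = 0 then (1 : R) else 0) else F x d) = 1 := by
      simp
    rw [h2, one_mul]
    refine prod_congr rfl fun y hy => ?_
    rw [mem_erase] at hy
    refine sum_congr rfl fun d _ => ?_
    rw [if_neg hy.1]
  rw [h1, Finset.prod_univ_sum, Fintype.piFinset_univ]
  refine sum_congr rfl fun g _ => ?_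
  rw [← Finset.mul_prod_erase univ (fun y => if y = x then (if g y = 0 then (1 : R) else 0) else F y (g y))
    (mem_univ x)]
  simp only [if_true]
  by_cases hg : g x = 0
  · rw [if_pos hg, if_pos hg, one_mul, ← Finset.mul_prod_erase univ (fun y => F y (g y)) (mem_univ x), hg, h0,
      one_mul]
    refine prod_congr rfl fun y hy => ?_
    rw [mem_erase] at hy
    rw [if_neg hy.1]
  · rw [if_neg hg, if_neg hg, zero_mul]

theorem expand {R : Type*} [CommRing R] {ι : Type} [Fintype ι] [DecidableEq ι] (Q : ℕ) (N : ι → Fin Q → R)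
    (Y : ι → R) :
    ∑ i : ι × Fin Q × (ι → Fin 2), qq Q N i * ∏ y, Y y ^ mm Q i y =
      ∑ x, (∑ m : Fin Q, N x m * Y x ^ (m : ℕ)) * ∏ y ∈ univ.erase x, (1 - Y y ^ Q) := by
  rw [Fintype.sum_prod_type]
  refine sum_congr rfl fun x _ => ?_
  rw [Fintype.sum_prod_type, sum_mul]
  refine sum_congr rfl fun m _ => ?_
  have h2 : ∀ y : ι, 1 - Y y ^ Q = ∑ d : Fin 2, (-1 : R) ^ (d : ℕ) * (Y y ^ Q) ^ (d : ℕ) := by
    intro y
    rw [Fin.sum_univ_two, Fin.val_zero, Fin.val_one]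
    ring
  rw [prod_congr rfl (fun y _ => h2 y),
    ← TJa_prod x (fun y d => (-1 : R) ^ (d : ℕ) * (Y y ^ Q) ^ (d : ℕ)) (by simp), mul_sum]
  refine sum_congr rfl fun g _ => ?_
  unfold qq mm
  by_cases hg : g x = 0
  · have h3 : ∏ y, Y y ^ ((if y = x then (m : ℕ) else 0) + Q * (g y : ℕ)) =
        (∏ y, Y y ^ (if y = x then (m : ℕ) else 0)) * ∏ y, (Y y ^ Q) ^ (g y : ℕ) := by
      rw [← prod_mul_distrib]
      refine prod_congr rfl fun y _ => ?_
      rw [pow_add, pow_mul]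
    have h4 : ∏ y, Y y ^ (if y = x then (m : ℕ) else 0) = Y x ^ (m : ℕ) := by
      rw [Finset.prod_eq_single x]
      · rw [if_pos rfl]
      · intro y _ hy
        rw [if_neg hy, pow_zero]
      · intro h
        exact absurd (mem_univ x) h
    change (if g x = 0 then N x m * ∏ y, (-1 : R) ^ (g y : ℕ) else 0) *
      ∏ y, Y y ^ ((if y = x then (m : ℕ) else 0) + Q * (g y : ℕ)) = _
    rw [if_pos hg, if_pos hg, h3, h4, prod_mul_distrib]
    ring
  · change (if g x = 0 then N x m * ∏ y, (-1 : R) ^ (g y : ℕ) else 0) * _ = _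
    rw [if_neg hg, if_neg hg, zero_mul, mul_zero]

end H46TS
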