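import Pool.Agent.H46.TS.TI
import Pool.Agent.H46.TS.TJa
import Pool.Agent.H5.SW.S7

/-!
ROW TJ (from the relations at roots of unity to a relation in the group algebra of `ℤ_p`).
PROOF. `irr`: `sep_form hp2 hE` (`Pool/Agent/H5/SW/S7.lean`) gives `l : ℤ_[p]ˣ → ℤ`, `l 1 = 0`, `l x ≠ 0` for `x ∈ E`, `x ≠ 1`, compatible with relations; apply it to
the relation `n x - m 1 = 0`: `n * l x - m * l 1 = 0`.
`grp`: index type `i : ι × Fin Q × (ι → Fin 2)`, `γ i = ∑_w (mm Q i w : ℤ_[p]) * y w ∈ ℤ_[p]`, `k0` = the bound of `grouping` (row TI) for `γ`.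
With `Y w = z ^ ((1 + p^e b) * (toZModPow (k+1) (y w)).val)` one has `∏_w Y w ^ mm Q i w = z ^ ((1 + p^e b) * (toZModPow (k+1) (γ i)).val)`
(as `H55T3.ZB_exp` in `Pool/Agent/H55/T3/ZB.lean`; copy it, it uses `SB_pow` from `Pool/Agent/H5/SW/SB.lean`), so by `expand` (row TJa) the hypothesis is
`∑_i qq Q N i * z ^ (...) = 0` for all `b`; `grouping` gives `∑_{γ i = γ i0} qq Q N i = 0` for all `i0`, hence
`∑_i single (γ i) (qq Q N i) = 0` in `AddMonoidAlgebra Ω ℤ_[p]` (`Finset.sum_fiberwise_of_maps_to` over the image of `γ`, as in `H55T3.no_relation3`), i.e.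
`∑_i single 0 (qq Q N i) * ∏_w (single (y w) 1) ^ mm Q i w = 0` (`AddMonoidAlgebra.single_mul_single`, `single_pow`, induction over the product);
by `qq_map` (ring homomorphism `AddMonoidAlgebra.singleZeroRingHom`) and `expand` over the ring `AddMonoidAlgebra Ω ℤ_[p]` this is the claim.
-/

set_option autoImplicit false

namespace H46TS

open Finset H5SW

theorem TJ_pow {Ω : Type} [Field Ω] {z : Ω} {N a b : ℕ} (hz : z ^ N = 1)
    (h : (a : ZMod N) = (b : ZMod N)) : z ^ a = z ^ b := by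
  rw [ZMod.natCast_eq_natCast_iff] at h
  rw [pow_eq_pow_mod a hz, pow_eq_pow_mod b hz]
  rw [h]

theorem TJ_exp {p k : ℕ} [Fact p.Prime] {ι : Type} [Fintype ι] {Ω : Type} [Field Ω] {z : Ω}
    (hz : z ^ (p ^ (k + 1)) = 1) (y : ι → ℤ_[p]) (m : ι → ℕ) (B : ℕ) :
    ∏ w, (z ^ (B * (PadicInt.toZModPow (k + 1) (y w)).val)) ^ (m w)
      = z ^ (B * (PadicInt.toZModPow (k + 1) (∑ w, (m w : ℤ_[p]) * y w)).val) := by
  simp only [← pow_mul]
  rw [Finset.prod_pow_eq_pow_sum]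
  refine TJ_pow hz ?_
  have : NeZero (p ^ (k + 1)) := ⟨pow_ne_zero _ (Fact.out (p := p.Prime)).ne_zero⟩
  push_cast
  simp only [ZMod.natCast_val, ZMod.cast_id', id_eq, map_mul, map_natCast, map_sum]
  rw [mul_sum]
  refine sum_congr rfl (fun y _ => ?_)
  ring

/-- the exponent attached to `i` -/
noncomputable def TJ_gam {p : ℕ} [Fact p.Prime] {ι : Type} [Fintype ι] [DecidableEq ι] (y : ι → ℤ_[p])
    (Q : ℕ) (i : ι × Fin Q × (ι → Fin 2)) : ℤ_[p] :=
  ∑ w, (mm Q i w : ℤ_[p]) * y w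

theorem TJ_single {p : ℕ} [Fact p.Prime] {ι : Type} {Ω : Type} [Field Ω] (y : ι → ℤ_[p])
    (m : ι → ℕ) (S : Finset ι) :
    ∏ w ∈ S, (AddMonoidAlgebra.single (y w) 1 : AddMonoidAlgebra Ω ℤ_[p]) ^ m w =
      AddMonoidAlgebra.single (∑ w ∈ S, (m w : ℤ_[p]) * y w) 1 := by
  classical
  induction S using Finset.induction_on with
  | empty => simp [AddMonoidAlgebra.one_def]
  | insert a S ha ih =>
    rw [prod_insert ha, sum_insert ha, ih, AddMonoidAlgebra.single_pow, AddMonoidAlgebra.single_mul_single,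
      one_pow, one_mul, nsmul_eq_mul]

theorem irr {p : ℕ} [Fact p.Prime] (hp2 : p ≠ 2) {E : Finset ℤ_[p]ˣ} (hE : EH p E) {x : ℤ_[p]ˣ} (hx : x ∈ E)
    (hx1 : x ≠ 1) (n m : ℤ) (h : (n : ℤ_[p]) * (x : ℤ_[p]) = m) : n = 0 := by
  obtain ⟨l, hl1, hl2, hl3⟩ := sep_form hp2 hE
  classical
  have h1 := hl3 (fun u => if u = x then n else if u = 1 then -m else 0) (by
    rw [Finset.sum_eq_add x 1 hx1]
    · simp only [if_true]
      rw [if_neg hx1.symm]
      push_cast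
      rw [h]
      ring
    · intro c _ hc
      rw [if_neg hc.1, if_neg hc.2]
      simp
    · intro h0
      exact absurd hx h0
    · intro h0
      exact absurd hE.one h0)
  rw [Finset.sum_eq_add x 1 hx1] at h1
  · simp only [if_true] at h1
    rw [hl1, mul_zero, add_zero] at h1
    exact (mul_eq_zero.1 h1).resolve_right (hl2 x hx hx1)
  · intro c _ hc
    rw [if_neg hc.1, if_neg hc.2]
    simp
  · intro h0
    exact absurd hx h0
  · intro h0
    exact absurd hE.one h0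

theorem grp {l p e : ℕ} [Fact l.Prime] [Fact p.Prime] (hlp : l ≠ p) {ι : Type} [Fintype ι] [DecidableEq ι]
    (y : ι → ℤ_[p]) (Q : ℕ) :
    ∃ k0 : ℕ, ∀ k ≥ k0, ∀ (Ω : Type) [Field Ω] [CharP Ω l] (z : Ω), IsPrimitiveRoot z (p ^ (k + 1)) →
      ∀ N : ι → Fin Q → Ω,
        (∀ b : ℕ, ∑ i, (∑ m : Fin Q, N i m *
            (z ^ ((1 + p ^ e * b) * (PadicInt.toZModPow (k + 1) (y i)).val)) ^ (m : ℕ)) *
          ∏ j ∈ univ.erase i, (1 - (z ^ ((1 + p ^ e * b) *
            (PadicInt.toZModPow (k + 1) (y j)).val)) ^ Q) = 0) →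
        ∑ i, (∑ m : Fin Q, AddMonoidAlgebra.single 0 (N i m) * AddMonoidAlgebra.single (y i) 1 ^ (m : ℕ)) *
          ∏ j ∈ univ.erase i, (1 - AddMonoidAlgebra.single (y j) 1 ^ Q) =
            (0 : AddMonoidAlgebra Ω ℤ_[p]) := by
  obtain ⟨k0, hk0⟩ := grouping (l := l) (e := e) hlp (TJ_gam y Q)
  refine ⟨k0, fun k hk Ω _ _ z hz N H => ?_⟩
  have hrel : ∀ b : ℕ, ∑ i : ι × Fin Q × (ι → Fin 2), qq Q N i *
      z ^ ((1 + p ^ e * b) * (PadicInt.toZModPow (k + 1) (TJ_gam y Q i)).val) = 0 := by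
    intro b
    have h1 : ∀ i : ι × Fin Q × (ι → Fin 2), z ^ ((1 + p ^ e * b) *
        (PadicInt.toZModPow (k + 1) (TJ_gam y Q i)).val) =
        ∏ w, (z ^ ((1 + p ^ e * b) * (PadicInt.toZModPow (k + 1) (y w)).val)) ^ mm Q i w :=
      fun i => (TJ_exp hz.pow_eq_one y (mm Q i) _).symm
    rw [sum_congr rfl (fun i _ => by rw [h1 i]), expand]
    exact H b
  have hgr := hk0 k hk Ω z hz (qq Q N) hrel
  have hsum : ∑ i : ι × Fin Q × (ι → Fin 2),
      (AddMonoidAlgebra.single (TJ_gam y Q i) (qq Q N i) : AddMonoidAlgebra Ω ℤ_[p]) = 0 := by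
    classical
    rw [← Finset.sum_fiberwise_of_maps_to (s := univ) (t := univ.image (TJ_gam y Q)) (g := TJ_gam y Q)
      (fun i _ => mem_image_of_mem _ (mem_univ i))]
    refine sum_eq_zero (fun g hg => ?_)
    obtain ⟨i0, _, rfl⟩ := mem_image.1 hg
    have h2 : ∀ i ∈ univ.filter (fun i => TJ_gam y Q i = TJ_gam y Q i0),
        (AddMonoidAlgebra.single (TJ_gam y Q i) (qq Q N i) : AddMonoidAlgebra Ω ℤ_[p]) =
          AddMonoidAlgebra.singleAddHom (TJ_gam y Q i0) (qq Q N i) := by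
      intro i hi
      rw [mem_filter] at hi
      rw [hi.2]
      rfl
    rw [sum_congr rfl h2, ← map_sum]
    have h4 : ∑ i ∈ univ.filter (fun i => TJ_gam y Q i = TJ_gam y Q i0), qq Q N i = 0 := by
      rw [← hgr i0]
    rw [h4, map_zero]
  have h5 : ∀ i : ι × Fin Q × (ι → Fin 2),
      (AddMonoidAlgebra.single (TJ_gam y Q i) (qq Q N i) : AddMonoidAlgebra Ω ℤ_[p]) =
      qq Q (fun x m => (AddMonoidAlgebra.single 0 (N x m) : AddMonoidAlgebra Ω ℤ_[p])) i *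
        ∏ w, (AddMonoidAlgebra.single (y w) 1 : AddMonoidAlgebra Ω ℤ_[p]) ^ mm Q i w := by
    intro i
    have h6 := qq_map (AddMonoidAlgebra.singleZeroRingHom : Ω →+* AddMonoidAlgebra Ω ℤ_[p]) Q N i
    have h7 : ∀ a : Ω, (AddMonoidAlgebra.singleZeroRingHom : Ω →+* AddMonoidAlgebra Ω ℤ_[p]) a =
        AddMonoidAlgebra.single 0 a := fun a => rfl
    simp only [h7] at h6
    rw [← h6, TJ_single y (mm Q i) univ, AddMonoidAlgebra.single_mul_single, zero_add, mul_one]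
    rfl
  rw [sum_congr rfl (fun i _ => h5 i), expand] at hsum
  exact hsum

end H46TS
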