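import Pool.Agent.H46.TS.TG
import Pool.Agent.H46.TS.TC

/-!
ROW TK (the level). ADAPT `H55T3.Tc3_level` in `Pool/Agent/H55/T3/ZT.lean`: `Fr3` becomes `Fc c` (resp. `Fc (fun a => c (P a))`), `fib_sum3` becomes `fib` (row TG),
`Fr3_inv` becomes `Fc_inv` (row TC), the factor `((p^(n-k) : ℕ) : Ω)^2` becomes `((p^(n-k) : ℕ) : Ω)`. The private lemmas `ZT_fib`, `ZT_neg` can be copied verbatim.
For the hypothesis of `fib` with `X = z^v` (`v` a unit mod `p^(k+1)`), `P = p^(n-k)`: `X^(P*M) ≠ 1`, since otherwise `p^(n+1) ∣ v * p^(n-k) * M`, so `p ∣ v * M`.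
-/

set_option autoImplicit false

namespace H46TS

open Finset H5SW

private lemma ZT_fib {Ω : Type*} [Field Ω] {M P N : ℕ} [NeZero N] [NeZero M] (hN : N = M * P) (hMN : M ∣ N)
    (hcop : ∀ a : ℕ, a.Coprime M → a.Coprime N) (v : (ZMod M)ˣ) (g : ℕ → Ω) :
    ∑ u ∈ univ.filter (fun u : (ZMod N)ˣ => ZMod.unitsMap hMN u = v), g (u : ZMod N).val =
      ∑ j ∈ range P, g ((v : ZMod M).val + M * j) := by
  have hM0 : 0 < M := Nat.pos_of_ne_zero (NeZero.ne M)
  have hvM : (v : ZMod M).val < M := ZMod.val_lt _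
  have hco : ∀ j, ((v : ZMod M).val + M * j).Coprime N := by
    intro j
    apply hcop
    rw [Nat.coprime_add_mul_left_left]
    exact ZMod.val_coe_unit_coprime v
  have hval : ∀ u : (ZMod N)ˣ, ZMod.unitsMap hMN u = v → (u : ZMod N).val % M = (v : ZMod M).val := by
    intro u hu
    have h1 : ((ZMod.unitsMap hMN u : (ZMod M)ˣ) : ZMod M) = ZMod.castHom hMN (ZMod M) (u : ZMod N) := rfl
    rw [hu, ZMod.castHom_apply] at h1
    rw [h1]
    have h2 : ((u : ZMod N).cast : ZMod M) = (((u : ZMod N).val : ℕ) : ZMod M) := by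
      rw [ZMod.natCast_val]
    rw [h2, ZMod.val_natCast]
  refine sum_bij' (fun u _ => (u : ZMod N).val / M) (fun j _ => ZMod.unitOfCoprime _ (hco j)) ?_ ?_ ?_ ?_ ?_
  · intro u hu
    rw [mem_range, Nat.div_lt_iff_lt_mul hM0]
    calc (u : ZMod N).val < N := (u : ZMod N).val_lt
      _ = P * M := by rw [hN, mul_comm]
  · intro j hj
    rw [mem_filter]
    refine ⟨mem_univ _, ?_⟩
    apply Units.ext
    have h1 : ((ZMod.unitsMap hMN (ZMod.unitOfCoprime _ (hco j)) : (ZMod M)ˣ) : ZMod M) =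
      ZMod.castHom hMN (ZMod M) ((((v : ZMod M).val + M * j : ℕ)) : ZMod N) := rfl
    rw [h1, map_natCast]
    push_cast
    simp
  · intro u hu
    rw [mem_filter] at hu
    apply Units.ext
    rw [ZMod.coe_unitOfCoprime, ← hval u hu.2, Nat.mod_add_div]
    simp
  · intro j hj
    rw [mem_range] at hj
    have hlt : (v : ZMod M).val + M * j < N := by
      rw [hN]
      have : M * (j + 1) ≤ M * P := Nat.mul_le_mul_left _ hj
      rw [mul_add] at this
      omega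
    simp only [ZMod.coe_unitOfCoprime]
    rw [ZMod.val_natCast, Nat.mod_eq_of_lt hlt, Nat.add_mul_div_left _ _ hM0,
      Nat.div_eq_of_lt hvM, zero_add]
  · intro u hu
    rw [mem_filter] at hu
    rw [← hval u hu.2, Nat.mod_add_div]

private lemma ZT_neg {M N : ℕ} (hMN : M ∣ N) (u : (ZMod N)ˣ) :
    ZMod.unitsMap hMN (-u) = -ZMod.unitsMap hMN u := by
  apply Units.ext
  have h1 : ((ZMod.unitsMap hMN (-u) : (ZMod M)ˣ) : ZMod M) = ZMod.castHom hMN (ZMod M) (-(u : ZMod N)) := rfl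
  have h2 : ((ZMod.unitsMap hMN u : (ZMod M)ˣ) : ZMod M) = ZMod.castHom hMN (ZMod M) (u : ZMod N) := rfl
  rw [Units.val_neg, h1, h2, map_neg]

theorem Tc_level {Ω : Type*} [Field Ω] {p n k M : ℕ} [Fact p.Prime] [NeZero M] (hp2 : p ≠ 2)
    (hpM : p.Coprime M) (hk : k ≤ n) {z : Ω} (hz : IsPrimitiveRoot z (p ^ (n + 1))) {c : ZMod M → Ω}
    (hodd : ∀ a, c (-a) = - c a) (h0 : c 0 = 0)
    (χ' : (ZMod (p ^ (k + 1)))ˣ →* Ωˣ) (hev : χ' (-1) = 1) :
    Tc c (χ'.comp (ZMod.unitsMap (pow_dvd_pow p (Nat.succ_le_succ hk)))) z =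
      ((p ^ (n - k) : ℕ) : Ω) * Tc (fun a => c (((p ^ (n - k) : ℕ) : ZMod M) * a)) χ'
        (z ^ (p ^ (n - k))) := by
  classical
  have hp : p.Prime := Fact.out
  have hpo : Odd p := hp.odd_of_ne_two hp2
  have hNM : p ^ (n + 1) = p ^ (k + 1) * p ^ (n - k) := by
    rw [← pow_add]; congr 1; omega
  have hMN : p ^ (k + 1) ∣ p ^ (n + 1) := pow_dvd_pow p (Nat.succ_le_succ hk)
  have hcop : ∀ a : ℕ, a.Coprime (p ^ (k + 1)) → a.Coprime (p ^ (n + 1)) := by
    intro a ha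
    have := Nat.Coprime.coprime_dvd_right (dvd_pow_self p (Nat.succ_ne_zero k)) ha
    exact this.pow_right _
  have hz0 : z ≠ 0 := hz.ne_zero (pow_ne_zero _ hp.ne_zero)
  have h1N : 1 < p ^ (n + 1) := Nat.one_lt_pow (Nat.succ_ne_zero n) hp.one_lt
  have h1M : 1 < p ^ (k + 1) := Nat.one_lt_pow (Nat.succ_ne_zero k) hp.one_lt
  have : Fact (1 < p ^ (n + 1)) := ⟨h1N⟩
  have : Fact (1 < p ^ (k + 1)) := ⟨h1M⟩
  have hη : IsPrimitiveRoot (z ^ (p ^ (k + 1))) (p ^ (n - k)) := hz.pow (by positivity) hNM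
  -- the fibres
  have hb : ∀ v : (ZMod (p ^ (k + 1)))ˣ,
      ∑ u ∈ univ.filter (fun u : (ZMod (p ^ (n + 1)))ˣ => ZMod.unitsMap hMN u = v),
        Fc c (z ^ (u : ZMod (p ^ (n + 1))).val) =
        ((p ^ (n - k) : ℕ) : Ω) * Fc (fun a => c (((p ^ (n - k) : ℕ) : ZMod M) * a))
          ((z ^ (p ^ (n - k))) ^ (v : ZMod (p ^ (k + 1))).val) := by
    intro v
    rw [ZT_fib hNM hMN hcop v (fun a => Fc c (z ^ a))]
    have h2 : ∀ j ∈ range (p ^ (n - k)),
        Fc c (z ^ ((v : ZMod (p ^ (k + 1))).val + p ^ (k + 1) * j)) = Fc c ((z ^ (p ^ (k + 1))) ^ j * z ^ (v : ZMod (p ^ (k + 1))).val) := by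
      intro j _
      rw [pow_add, pow_mul, mul_comm]
    have h7 : (z ^ (v : ZMod (p ^ (k + 1))).val) ^ (p ^ (n - k) * M) ≠ 1 := by
      intro h3
      rw [← pow_mul] at h3
      have h4 := (hz.pow_eq_one_iff_dvd _).mp h3
      rw [hNM, mul_comm (p ^ (n - k)) M, ← mul_assoc] at h4
      have h5 : p ^ (k + 1) ∣ (v : ZMod (p ^ (k + 1))).val * M :=
        Nat.dvd_of_mul_dvd_mul_right (pow_pos hp.pos _) h4
      have h8 : (p ^ (k + 1)).Coprime M := Nat.Coprime.pow_left _ hpM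
      have h9 := h8.dvd_of_dvd_mul_right h5
      have h6 := Nat.Coprime.eq_one_of_dvd (ZMod.val_coe_unit_coprime v).symm h9
      omega
    rw [sum_congr rfl h2, fib (pow_pos hp.pos _) hη c h7, ← pow_mul, ← pow_mul,
      mul_comm (v : ZMod (p ^ (k + 1))).val]
  unfold Tc
  have hA : IsHalf (univ.filter (fun u : (ZMod (p ^ (n + 1)))ˣ => ZMod.unitsMap hMN u ∈ Hf (p ^ (k + 1)))) := by
    intro u
    have := isHalf_Hf (hpo.pow : Odd (p ^ (k + 1))) h1M (ZMod.unitsMap hMN u)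
    simp only [mem_filter, mem_univ, true_and]
    rw [ZT_neg]
    exact this
  rw [sum_half (isHalf_Hf (hpo.pow) h1N) hA]
  · have hmaps : ∀ u ∈ univ.filter (fun u : (ZMod (p ^ (n + 1)))ˣ => ZMod.unitsMap hMN u ∈ Hf (p ^ (k + 1))),
        ZMod.unitsMap hMN u ∈ Hf (p ^ (k + 1)) := fun u hu => (mem_filter.mp hu).2
    rw [← sum_fiberwise_of_maps_to hmaps, mul_sum]
    refine sum_congr rfl fun v hv => ?_
    rw [mul_left_comm, ← hb v, mul_sum, filter_filter]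
    refine sum_congr ?_ ?_
    · ext u
      simp only [mem_filter, mem_univ, true_and]
      constructor
      · rintro ⟨_, h⟩; exact h
      · intro h; exact ⟨h ▸ hv, h⟩
    · intro u hu
      have hu2 := (mem_filter.mp hu).2
      rw [MonoidHom.comp_apply, hu2]
  · intro u
    have hu : (u : ZMod (p ^ (n + 1))) ≠ 0 := u.ne_zero
    have h2 : ((-u : (ZMod (p ^ (n + 1)))ˣ) : ZMod (p ^ (n + 1))).val = p ^ (n + 1) - (u : ZMod (p ^ (n + 1))).val := by
      rw [Units.val_neg, ZMod.neg_val, if_neg hu]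
    have h3 : z ^ (p ^ (n + 1) - (u : ZMod (p ^ (n + 1))).val) = (z ^ (u : ZMod (p ^ (n + 1))).val)⁻¹ := by
      apply eq_inv_of_mul_eq_one_left
      rw [← pow_add, Nat.sub_add_cancel (u : ZMod (p ^ (n + 1))).val_lt.le,
        hz.pow_eq_one]
    rw [h2, h3, Fc_inv hodd h0 (pow_ne_zero _ hz0), MonoidHom.comp_apply, MonoidHom.comp_apply, ZT_neg]
    have h4 : χ' (-ZMod.unitsMap hMN u) = χ' (ZMod.unitsMap hMN u) := by
      rw [show -ZMod.unitsMap hMN u = (-1) * ZMod.unitsMap hMN u by simp, map_mul, hev, one_mul]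
    rw [h4]

end H46TS
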