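import Pool.Agent.H46.TS.TA
import Pool.Agent.H46.TS.TC
import Pool.Agent.H46.TS.TF
import Pool.Agent.H46.TS.TG
import Pool.Agent.H46.TS.TH
import Pool.Agent.H46.TS.TJ
import Pool.Agent.H46.TS.TK
import Pool.Agent.H5.SW.SB
import Pool.Agent.H5.SW.T0

/-!
Sinnott's non vanishing theorem in characteristic `l` for arbitrary odd periodic functions (assembly, helper46; no row).
-/

set_option autoImplicit false

namespace H46TS

open Finset H5SW

open scoped Classical in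
theorem no_relation {l p e : ℕ} [Fact l.Prime] [Fact p.Prime] (hp2 : p ≠ 2) (hlp : l ≠ p)
    {E : Finset ℤ_[p]ˣ} (hE : EH p E) (Q : ℕ) :
    ∃ k0 : ℕ, ∀ k ≥ k0, ∀ (Ω : Type) [Field Ω] [CharP Ω l] (z : Ω),
      IsPrimitiveRoot z (p ^ (k + 1)) → ∀ N : ℤ_[p]ˣ → ℕ → Ω, (∃ m < Q, N 1 m ≠ 0) →
        ¬ ∀ b : ℕ, ∑ x ∈ E, (∑ m ∈ range Q, N x m *
            (z ^ ((1 + p ^ e * b) * (PadicInt.toZModPow (k + 1) (x : ℤ_[p])).val)) ^ m) *
          ∏ y ∈ E.erase x, (1 - (z ^ ((1 + p ^ e * b) *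
            (PadicInt.toZModPow (k + 1) (y : ℤ_[p])).val)) ^ Q) = 0 := by
  obtain ⟨k0, hk0⟩ := grp (l := l) (e := e) hlp (fun x : E => ((x : ℤ_[p]ˣ) : ℤ_[p])) Q
  refine ⟨k0, fun k hk Ω _ _ z hz N hN H => ?_⟩
  have h1 := hk0 k hk Ω z hz (fun x m => N (x : ℤ_[p]ˣ) (m : ℕ)) (by
    intro b
    rw [← H b, ← Finset.sum_coe_sort E]
    refine sum_congr rfl fun x _ => ?_
    rw [← Finset.sum_range (f := fun m => N (x : ℤ_[p]ˣ) m *
      (z ^ ((1 + p ^ e * b) * (PadicInt.toZModPow (k + 1) ((x : ℤ_[p]ˣ) : ℤ_[p])).val)) ^ m)]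
    congr 1
    rw [← Finset.prod_coe_sort (E.erase x)]
    refine Finset.prod_bij' (fun y hy => ⟨(y : ℤ_[p]ˣ), Finset.mem_erase.2
      ⟨fun h => (Finset.mem_erase.1 hy).1 (Subtype.ext h), y.2⟩⟩)
      (fun y _ => ⟨(y : ℤ_[p]ˣ), (Finset.mem_erase.1 y.2).2⟩) ?_ ?_ ?_ ?_ ?_
    · intro y hy
      exact mem_univ _
    · intro y hy
      rw [Finset.mem_erase]
      exact ⟨fun h => (Finset.mem_erase.1 y.2).1 (congrArg Subtype.val h), mem_univ _⟩
    · intro y hy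
      rfl
    · intro y hy
      rfl
    · intro y hy
      rfl)
  obtain ⟨m, hm, hm2⟩ := hN
  have h2 := final (fun x : E => ((x : ℤ_[p]ˣ) : ℤ_[p])) (⟨1, hE.one⟩ : E) (by
      intro n hn
      simp only [Units.val_one, zsmul_eq_mul, mul_one] at hn
      exact_mod_cast hn) (by
      intro x hx n m' hnm
      simp only [Units.val_one, zsmul_eq_mul, mul_one] at hnm
      exact irr hp2 hE x.2 (fun h => hx (Subtype.ext h)) n m' hnm) _ h1 ⟨m, hm⟩
  exact hm2 h2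

theorem sinnottG {l p M s0 : ℕ} [Fact l.Prime] [Fact p.Prime] [NeZero M] (hp2 : p ≠ 2) (hlp : l ≠ p)
    (hpM : p.Coprime M) (hs0 : 1 ≤ s0) : ∃ k0 : ℕ, NV l p M s0 k0 := by
  classical
  have hp : p.Prime := Fact.out
  obtain ⟨e, s, hQ, hs⟩ := exists_QD hlp s0 hs0
  obtain ⟨E, hE⟩ := exists_EH hp2
  obtain ⟨k0, hk0⟩ := no_relation (l := l) (e := e) hp2 hlp hE (p ^ e * M)
  refine ⟨max (2 * e) k0, ?_⟩
  intro k hk Ω _ _ z hz c hc χ hev hprim h0
  have hk1 : 2 * e ≤ k := (le_max_left _ _).trans hk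
  have hk2 : k0 ≤ k := (le_max_right _ _).trans hk
  have hcs0 : ∀ (j : ℕ) (a : ZMod M), c a ^ (l ^ (s0 * j)) = c a := by
    intro j a
    induction j with
    | zero => simp
    | succ j ih =>
      rw [Nat.mul_succ, pow_add, pow_mul, ih, hc.fro]
  have hcs : ∀ a, c a ^ (l ^ s) = c a := by
    intro a
    obtain ⟨j, rfl⟩ := hs
    exact hcs0 j a
  obtain ⟨ρ, hρ, hrel⟩ := rel (l := l) hp2 hlp hQ (by omega) (by omega) hE hz (f := Fc c)
    (fun x hx => Fc_inv hc.odd hc.zero hx) (fun i x => Fc_frob hcs i x) χ hev hprim h0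
  have hpe : 0 < p ^ e := pow_pos hp.pos e
  have hsplit : p ^ (k + 1) = p ^ (k + 1 - e) * p ^ e := by
    rw [← pow_add]; congr 1; omega
  have hω1 : IsPrimitiveRoot (z ^ (p ^ (k + 1 - e))) (p ^ e) := hz.pow (pow_pos hp.pos _) hsplit
  have hcop := fun x : ℤ_[p]ˣ => SB_cop k x
  have hω : ∀ x : ℤ_[p]ˣ, IsPrimitiveRoot ((z ^ (p ^ (k + 1 - e))) ^
      (PadicInt.toZModPow (k + 1) (x : ℤ_[p])).val) (p ^ e) := fun x =>
    hω1.pow_of_coprime _ (Nat.Coprime.pow_right e (hcop x))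
  choose N hN1 hN2 using fun x : ℤ_[p]ˣ => poly (M := M) hpe (Nat.Coprime.pow_left e hpM)
    (cast_ne hlp e Ω) (hω x) hρ hc.ne
  obtain ⟨m, hm, hm2⟩ := hN1 1
  have hbp : ∀ b : ℕ, Nat.Coprime (1 + p ^ e * b) p := by
    intro b
    have h1 : p ^ e * b = p * (p ^ (e - 1) * b) := by
      rw [← mul_assoc, ← pow_succ']
      congr 2
      have := hQ.e1
      omega
    rw [h1, Nat.coprime_add_mul_left_left]
    exact Nat.coprime_one_left p
  have hne : ∀ (b : ℕ) (x : ℤ_[p]ˣ), (z ^ ((1 + p ^ e * b) *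
      (PadicInt.toZModPow (k + 1) (x : ℤ_[p])).val)) ^ (p ^ e * M) ≠ 1 := by
    intro b x h1
    rw [← pow_mul, hz.pow_eq_one_iff_dvd] at h1
    have h2 : Nat.Coprime (p ^ (k + 1)) (((1 + p ^ e * b) *
        (PadicInt.toZModPow (k + 1) (x : ℤ_[p])).val) * M) :=
      Nat.Coprime.pow_left _ (Nat.Coprime.mul_right
        (Nat.Coprime.symm (Nat.Coprime.mul_left (hbp b) (hcop x))) hpM)
    have h3 : p ^ (k + 1) ∣ (((1 + p ^ e * b) * (PadicInt.toZModPow (k + 1) (x : ℤ_[p])).val) * M) * p ^ e := by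
      refine h1.trans (dvd_of_eq ?_)
      ring
    have h4 := h2.dvd_of_dvd_mul_left h3
    have h5 := (Nat.pow_dvd_pow_iff_le_right hp.one_lt).1 h4
    omega
  refine hk0 k hk2 Ω z hz (fun x m => (χ (red (k + 1) x) : Ω) * N x m)
    ⟨m, hm, mul_ne_zero (Units.ne_zero _) hm2⟩ (fun b => ?_)
  have hY : ∀ x : ℤ_[p]ˣ, ∑ t ∈ range (p ^ e),
          ρ ^ t * Fc c (z ^ ((1 + p ^ e * b) * (1 + p ^ (k + 1 - e) * t) *
            (PadicInt.toZModPow (k + 1) (x : ℤ_[p])).val)) =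
      (∑ m ∈ range (p ^ e * M), N x m *
            (z ^ ((1 + p ^ e * b) * (PadicInt.toZModPow (k + 1) (x : ℤ_[p])).val)) ^ m) /
        (1 - (z ^ ((1 + p ^ e * b) *
            (PadicInt.toZModPow (k + 1) (x : ℤ_[p])).val)) ^ (p ^ e * M)) := by
    intro x
    rw [← hN2 x _ (hne b x)]
    refine sum_congr rfl fun t _ => ?_
    congr 2
    rw [← pow_mul, ← pow_mul, ← pow_add]
    refine SB_pow hz.pow_eq_one ?_
    generalize (PadicInt.toZModPow (k + 1) (x : ℤ_[p])).val = v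
    have h5 : (1 + p ^ e * b) * (1 + p ^ (k + 1 - e) * t) * v
        = p ^ (k + 1 - e) * v * t + (1 + p ^ e * b) * v + p ^ (k + 1) * (b * t * v) := by
      rw [hsplit]
      ring
    rw [h5]
    push_cast
    have h6 : ((p : ZMod (p ^ (k + 1))) ^ (k + 1)) = 0 := by
      have := ZMod.natCast_self (p ^ (k + 1))
      push_cast at this
      exact this
    rw [h6]
    ring
  have h7 := hrel b
  have h8 : (∏ y ∈ E, (1 - (z ^ ((1 + p ^ e * b) *
            (PadicInt.toZModPow (k + 1) (y : ℤ_[p])).val)) ^ (p ^ e * M))) *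
      ∑ x ∈ E, (χ (red (k + 1) x) : Ω) * ∑ t ∈ range (p ^ e),
          ρ ^ t * Fc c (z ^ ((1 + p ^ e * b) * (1 + p ^ (k + 1 - e) * t) *
            (PadicInt.toZModPow (k + 1) (x : ℤ_[p])).val)) = 0 := by
    rw [h7, mul_zero]
  rw [← h8, mul_sum]
  refine sum_congr rfl fun x hx => ?_
  rw [hY x, ← Finset.mul_prod_erase E _ hx]
  have h9 : (1 - (z ^ ((1 + p ^ e * b) *
            (PadicInt.toZModPow (k + 1) (x : ℤ_[p])).val)) ^ (p ^ e * M)) ≠ 0 := by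
    intro h
    exact hne b x (sub_eq_zero.1 h).symm
  have h10 : (∑ m ∈ range (p ^ e * M), (χ (red (k + 1) x) : Ω) * N x m *
            (z ^ ((1 + p ^ e * b) * (PadicInt.toZModPow (k + 1) (x : ℤ_[p])).val)) ^ m) =
      (χ (red (k + 1) x) : Ω) * ∑ m ∈ range (p ^ e * M), N x m *
            (z ^ ((1 + p ^ e * b) * (PadicInt.toZModPow (k + 1) (x : ℤ_[p])).val)) ^ m := by
    rw [mul_sum]
    exact sum_congr rfl fun m _ => mul_assoc _ _ _
  rw [h10]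
  generalize ∏ y ∈ E.erase x, (1 - (z ^ ((1 + p ^ e * b) *
            (PadicInt.toZModPow (k + 1) (y : ℤ_[p])).val)) ^ (p ^ e * M)) = V
  generalize (1 - (z ^ ((1 + p ^ e * b) *
            (PadicInt.toZModPow (k + 1) (x : ℤ_[p])).val)) ^ (p ^ e * M)) = W at h9
  field_simp

/-- `c (P ·)` is good if `c` is, for `P` prime to `M` -/
theorem good_dil {l s0 M P : ℕ} {Ω : Type*} [Field Ω] (hP : P.Coprime M) {c : ZMod M → Ω}
    (hc : Good l s0 c) : Good l s0 (fun a => c ((P : ZMod M) * a)) := by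
  refine ⟨fun a => ?_, ?_, fun a => hc.fro _, ?_⟩
  · show c (_ * -a) = _
    rw [mul_neg, hc.odd]
  · show c (_ * 0) = 0
    rw [mul_zero, hc.zero]
  · obtain ⟨a, ha⟩ := hc.ne
    refine ⟨((ZMod.unitOfCoprime P hP)⁻¹ : (ZMod M)ˣ) * a, ?_⟩
    show c (_ * (_ * a)) ≠ 0
    rw [← mul_assoc, ← ZMod.coe_unitOfCoprime P hP, Units.mul_inv, one_mul]
    exact ha

/-- non vanishing for all levels: `χ` modulo `p ^ (n + 1)`, not defined modulo `p ^ (m + 1)`, `k0 ≤ m + 1` -/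
theorem NV.level {l p M s0 k0 : ℕ} [Fact l.Prime] [Fact p.Prime] [NeZero M] (hp2 : p ≠ 2) (hlp : l ≠ p)
    (hpM : p.Coprime M) (H : NV l p M s0 k0) {n m : ℕ} (hmn : m ≤ n) (hk0 : k0 ≤ m + 1) {Ω : Type}
    [Field Ω] [CharP Ω l] {z : Ω} (hz : IsPrimitiveRoot z (p ^ (n + 1))) {c : ZMod M → Ω}
    (hc : Good l s0 c) (χ : (ZMod (p ^ (n + 1)))ˣ →* Ωˣ) (hev : χ (-1) = 1)
    (hm : ∃ u, ZMod.unitsMap (pow_dvd_pow p (Nat.succ_le_succ hmn)) u = 1 ∧ χ u ≠ 1) :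
    Tc c χ z ≠ 0 := by
  have hp : p.Prime := Fact.out
  obtain ⟨k, hmk, hkn, χ', rfl, hev', hprim⟩ := factor_level hp2 hmn χ hev hm
  rw [Tc_level hp2 hpM hkn hz hc.odd hc.zero χ' hev']
  have hz' : IsPrimitiveRoot (z ^ (p ^ (n - k))) (p ^ (k + 1)) := by
    refine hz.pow (pow_pos hp.pos _) ?_
    rw [← pow_add]
    congr 1
    omega
  exact mul_ne_zero (cast_ne hlp _ Ω) (H k (by omega) Ω _ hz' _
    (good_dil (Nat.Coprime.pow_left _ hpM) hc) χ' hev' hprim)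

end H46TS
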