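import Pool.Agent.H5.SW.S3

/-!
Sinnott's non vanishing theorem in characteristic `l` for arbitrary odd periodic functions: definitions (helper46; no row).
-/

set_option autoImplicit false

namespace H46TS

open Finset

/-- the rational function attached to a function on `ZMod M`: `(∑_{n < M} c(n) X^n) / (1 - X^M)` -/
def Fc {Ω : Type*} [Field Ω] {M : ℕ} (c : ZMod M → Ω) (x : Ω) : Ω :=
  (∑ n ∈ range M, c (n : ZMod M) * x ^ n) / (1 - x ^ M)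

/-- the sum `∑_u χ(u) F_c(z^u)` over a half system -/
noncomputable def Tc {f : ℕ} [NeZero f] {Ω : Type*} [Field Ω] {M : ℕ} (c : ZMod M → Ω)
    (χ : (ZMod f)ˣ →* Ωˣ) (z : Ω) : Ω :=
  ∑ u ∈ H5SW.Hf f, (χ u : Ω) * Fc c (z ^ (u : ZMod f).val)

/-- `c` is odd, non zero and has values in the field with `l ^ s0` elements -/
structure Good (l s0 : ℕ) {Ω : Type*} [Field Ω] {M : ℕ} (c : ZMod M → Ω) : Prop where
  odd : ∀ a, c (-a) = - c a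
  zero : c 0 = 0
  fro : ∀ a, c a ^ (l ^ s0) = c a
  ne : ∃ a, c a ≠ 0

/-- non vanishing from level `k0` on -/
def NV (l p M s0 k0 : ℕ) [Fact p.Prime] : Prop :=
  ∀ k ≥ k0, ∀ (Ω : Type) [Field Ω] [CharP Ω l] (z : Ω), IsPrimitiveRoot z (p ^ (k + 1)) →
    ∀ c : ZMod M → Ω, Good l s0 c →
      ∀ χ : (ZMod (p ^ (k + 1)))ˣ →* Ωˣ, χ (-1) = 1 → H5SW.Prim χ → Tc c χ z ≠ 0

/-- parameters: `q = l ^ s` is `1` modulo `p ^ e` exactly and modulo the prime to `l` part of `p - 1` -/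
structure QD (l p e s : ℕ) : Prop where
  e1 : 1 ≤ e
  s1 : 1 ≤ s
  dvd : p ^ e ∣ l ^ s - 1
  not_dvd : ¬ p ^ (e + 1) ∣ l ^ s - 1
  cop : ∀ r : ℕ, ¬ l ∣ r → r ∣ p - 1 → r ∣ l ^ s - 1

lemma cast_ne {l p : ℕ} [hl : Fact l.Prime] [hp : Fact p.Prime] (hlp : l ≠ p) (n : ℕ) (Ω : Type*) [Field Ω]
    [CharP Ω l] : ((p ^ n : ℕ) : Ω) ≠ 0 := by
  intro h
  have h1 : l ∣ p ^ n := (CharP.cast_eq_zero_iff Ω l _).mp h
  have h2 : l ∣ p := Nat.Prime.dvd_of_dvd_pow hl.out h1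
  exact hlp ((Nat.prime_dvd_prime_iff_eq hl.out hp.out).mp h2)

/-- coefficient function of `∑_t ψ(t) (ξ^t X) / (1 - ξ^t X)` -/
def c1 {Ω : Type*} [Field Ω] {d : ℕ} [NeZero d] (ψ : (ZMod d)ˣ →* Ωˣ) (ξ : Ω) (n : ZMod d) : Ω :=
  ∑ t : (ZMod d)ˣ, (ψ t : Ω) * ξ ^ ((t : ZMod d) * n).val

/-- coefficient function of `∑_t ψ(t) (ξ^t X) / (1 - ξ^t X)^2` in characteristic `l` -/
def c2 {Ω : Type*} [Field Ω] (l : ℕ) {d : ℕ} [NeZero d] (ψ : (ZMod d)ˣ →* Ωˣ) (ξ : Ω) (n : ZMod (l * d)) : Ω :=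
  (n.val : Ω) * c1 ψ ξ (n.val : ZMod d)

end H46TS
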