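import Pool.Agent.H46.TS.Ds

/-!
ROW TA (parameters). ADAPT `H55T3.exists_QD3` in `Pool/Agent/H55/T3/Z0.lean` (there `l = 3`).
PROOF. `p - 1 = l^k * r0` with `¬ l ∣ r0` (`Nat.exists_eq_pow_mul_and_not_dvd`), `s = s0 * totient (p * r0)`, `l^s ≡ 1 mod p r0`
(`Nat.ModEq.pow_totient` raised to the power `s0`), `e = padicValNat p (l^s - 1)`.
-/

set_option autoImplicit false

namespace H46TS

open Finset

theorem exists_QD {l p : ℕ} [Fact l.Prime] [Fact p.Prime] (hlp : l ≠ p) (s0 : ℕ) (hs0 : 1 ≤ s0) :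
    ∃ e s : ℕ, QD l p e s ∧ s0 ∣ s := by
  have hl : l.Prime := Fact.out
  have hp : p.Prime := Fact.out
  have hp1 : 1 < p := hp.one_lt
  obtain ⟨k, r0, hr0, hk⟩ := Nat.exists_eq_pow_mul_and_not_dvd (n := p - 1) (by omega) l hl.ne_one
  have hr0pos : 0 < r0 := by
    rcases Nat.eq_zero_or_pos r0 with h | h
    · rw [h] at hr0; exact absurd (dvd_zero l) hr0
    · exact h
  have hp0 : 0 < p := hp.pos
  have hlp' : ¬ l ∣ p := fun h => hlp ((Nat.prime_dvd_prime_iff_eq hl hp).mp h)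
  have hcop : Nat.Coprime l (p * r0) :=
    Nat.Coprime.mul_right ((Nat.Prime.coprime_iff_not_dvd hl).mpr hlp')
      ((Nat.Prime.coprime_iff_not_dvd hl).mpr hr0)
  obtain ⟨s, hs⟩ : ∃ s, s = s0 * Nat.totient (p * r0) := ⟨_, rfl⟩
  have hs1 : 1 ≤ s := by
    rw [hs]
    exact Nat.mul_pos hs0 (Nat.totient_pos.mpr (by positivity))
  have hmod : l ^ s ≡ 1 [MOD p * r0] := by
    have h1 := (Nat.ModEq.pow_totient hcop).pow s0
    rw [one_pow, ← pow_mul, mul_comm (Nat.totient (p * r0)) s0, ← hs] at h1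
    exact h1
  have hdvd : p * r0 ∣ l ^ s - 1 :=
    (Nat.modEq_iff_dvd' (Nat.one_le_pow _ _ hl.pos)).mp hmod.symm
  have h2s : 1 < l ^ s := Nat.one_lt_pow (by omega) hl.one_lt
  have hne : l ^ s - 1 ≠ 0 := by omega
  have hpd : p ∣ l ^ s - 1 := (dvd_mul_right p r0).trans hdvd
  refine ⟨padicValNat p (l ^ s - 1), s, ⟨?_, hs1, pow_padicValNat_dvd,
    pow_succ_padicValNat_not_dvd hne, ?_⟩, ?_⟩
  · exact one_le_padicValNat_of_dvd hne hpd
  · intro r hr hrd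
    rw [hk] at hrd
    have h3 : Nat.Coprime r (l ^ k) :=
      (((Nat.Prime.coprime_iff_not_dvd hl).mpr hr).symm).pow_right k
    have h4 : r ∣ r0 := h3.dvd_of_dvd_mul_left hrd
    exact (h4.trans (dvd_mul_left r0 p)).trans hdvd
  · rw [hs]
    exact dvd_mul_right _ _

end H46TS
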