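import Pool.Agent.H46.TS.TB

/-!
ROW TD (from the vanishing of the sum to a restricted sum). ADAPT `H55T3.av2_3` in `Pool/Agent/H55/T3/Z2.lean` (there `l = 3`, `f = Fr3`): replace `3` by `l`,
`Fr3` by `f`, `Z2_Fr_pow` by `hf2` (with `(l^s)^i` for `3^i`), `Fr3_inv` by `hf1`, `three_cast_ne hp5` by `cast_ne hlp`, `av1_3` by `av1` (row TB).
-/

set_option autoImplicit false

namespace H46TS

open Finset H5SW

theorem TD_pow_mod {Ω : Type*} [Field Ω] {f : ℕ} {z : Ω} (hz : z ^ f = 1) (N : ℕ) : z ^ (N % f) = z ^ N := by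
  conv_rhs => rw [← Nat.div_add_mod N f, pow_add, pow_mul, hz, one_pow, one_mul]

theorem TD_Z_nat {Ω : Type*} [Field Ω] {f : ℕ} {z : Ω} (hz : z ^ f = 1) (N : ℕ) :
    z ^ ((N : ZMod f)).val = z ^ N := by
  rw [ZMod.val_natCast]
  exact TD_pow_mod hz N

theorem TD_Z_mul {Ω : Type*} [Field Ω] {f : ℕ} [NeZero f] {z : Ω} (hz : z ^ f = 1) (c : ℕ) (u : ZMod f) :
    z ^ ((c : ZMod f) * u).val = (z ^ u.val) ^ c := by
  have h1 : (c : ZMod f) * u = ((c * u.val : ℕ) : ZMod f) := by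
    push_cast
    rw [ZMod.natCast_zmod_val]
  rw [h1, TD_Z_nat hz, mul_comm, pow_mul]

theorem TD_Z_neg {Ω : Type*} [Field Ω] {f : ℕ} [NeZero f] {z : Ω} (hz : z ^ f = 1) {F : Ω → Ω}
    (hf1 : ∀ x, x ≠ 0 → F x⁻¹ = F x) (u : ZMod f) :
    F (z ^ (-u).val) = F (z ^ u.val) := by
  have hf0 : f ≠ 0 := NeZero.ne f
  have hz0 : z ≠ 0 := by
    rintro rfl
    rw [zero_pow hf0] at hz
    exact zero_ne_one hz
  by_cases hu : u = 0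
  · subst hu
    rw [neg_zero]
  · have h1 : z ^ (-u).val = (z ^ u.val)⁻¹ := by
      rw [ZMod.neg_val, if_neg hu]
      have h2 := u.val_lt
      apply eq_inv_of_mul_eq_one_left
      rw [← pow_add, Nat.sub_add_cancel h2.le, hz]
    rw [h1]
    exact hf1 _ (pow_ne_zero _ hz0)

theorem TD_step {Ω : Type*} [Field Ω] {l : ℕ} [Fact l.Prime] [CharP Ω l] {f s : ℕ} [NeZero f] (hf : Odd f)
    (hlf : Nat.Coprime l f) (h1f : 1 < f) {z : Ω} (hz : z ^ f = 1) {F : Ω → Ω}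
    (hf1 : ∀ x, x ≠ 0 → F x⁻¹ = F x) (hf2 : ∀ (i : ℕ) (x : Ω), F x ^ ((l ^ s) ^ i) = F (x ^ ((l ^ s) ^ i)))
    (χ : (ZMod f)ˣ →* Ωˣ) (hev : χ (-1) = 1)
    (h0 : ∑ u ∈ Hf f, (χ u : Ω) * F (z ^ (u : ZMod f).val) = 0) (j : ℕ) :
    ∑ v ∈ Hf f, (χ v : Ω) ^ ((l ^ s) ^ j) * F (z ^ (v : ZMod f).val) = 0 := by
  classical
  have hl : l.Prime := Fact.out
  have hcop : Nat.Coprime ((l ^ s) ^ j) f := by
    rw [← pow_mul]
    exact Nat.Coprime.pow_left _ hlf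
  obtain ⟨Q, hQ⟩ : ∃ Q : (ZMod f)ˣ, (Q : ZMod f) = (((l ^ s) ^ j : ℕ) : ZMod f) :=
    ⟨ZMod.unitOfCoprime _ hcop, rfl⟩
  have hA := isHalf_Hf hf h1f
  have hB := isHalf_smul hA Q
  have hev2 : ∀ v : (ZMod f)ˣ, χ (-v) = χ v := by
    intro v
    rw [show -v = (-1) * v by rw [neg_one_mul], map_mul, hev, one_mul]
  have hsum := sum_half hA hB (fun v => (χ (Q⁻¹ * v) : Ω) ^ ((l ^ s) ^ j) * F (z ^ (v : ZMod f).val))
    (by
      intro v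
      rw [mul_neg, hev2, Units.val_neg, TD_Z_neg hz hf1])
  rw [sum_image (by
    intro a _ b _ hab
    exact mul_left_cancel hab)] at hsum
  have hpow : (∑ u ∈ Hf f, (χ u : Ω) * F (z ^ (u : ZMod f).val)) ^ (l ^ (s * j)) = 0 := by
    rw [h0]
    exact zero_pow (pow_ne_zero _ hl.ne_zero)
  rw [sum_pow_char_pow] at hpow
  have hr : ∑ u ∈ Hf f, (χ (Q⁻¹ * (Q * u)) : Ω) ^ ((l ^ s) ^ j) *
      F (z ^ ((Q * u : (ZMod f)ˣ) : ZMod f).val) = 0 := by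
    rw [← hpow]
    refine sum_congr rfl (fun u _ => ?_)
    rw [inv_mul_cancel_left, mul_pow, pow_mul l s j, hf2, Units.val_mul, hQ, TD_Z_mul hz]
  rw [hr] at hsum
  have hfac : ∑ v ∈ Hf f, (χ (Q⁻¹ * v) : Ω) ^ ((l ^ s) ^ j) * F (z ^ (v : ZMod f).val)
      = (χ Q⁻¹ : Ω) ^ ((l ^ s) ^ j) *
        ∑ v ∈ Hf f, (χ v : Ω) ^ ((l ^ s) ^ j) * F (z ^ (v : ZMod f).val) := by
    rw [mul_sum]
    refine sum_congr rfl (fun v _ => ?_)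
    rw [map_mul, Units.val_mul, mul_pow]
    ring
  rw [hfac] at hsum
  rcases mul_eq_zero.1 hsum with h | h
  · exact absurd h (pow_ne_zero _ (Units.ne_zero _))
  · exact h

open Classical in
theorem av2 {Ω : Type*} [Field Ω] {l p k e s : ℕ} [Fact l.Prime] [CharP Ω l] [Fact p.Prime] (hp2 : p ≠ 2)
    (hlp : l ≠ p) (hQ : QD l p e s) (hek : e ≤ k) {z : Ω} (hz : z ^ (p ^ (k + 1)) = 1) {f : Ω → Ω}
    (hf1 : ∀ x, x ≠ 0 → f x⁻¹ = f x) (hf2 : ∀ (i : ℕ) (x : Ω), f x ^ ((l ^ s) ^ i) = f (x ^ ((l ^ s) ^ i)))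
    (χ : (ZMod (p ^ (k + 1)))ˣ →* Ωˣ) (hev : χ (-1) = 1)
    (h0 : ∑ u ∈ Hf (p ^ (k + 1)), (χ u : Ω) * f (z ^ (u : ZMod (p ^ (k + 1))).val) = 0)
    (a : (ZMod (p ^ (k + 1)))ˣ) :
    ∑ u ∈ (Hf (p ^ (k + 1))).filter (fun u => χ (u * a⁻¹) ^ (l ^ s) = χ (u * a⁻¹)),
      (χ (u * a⁻¹) : Ω) * f (z ^ (u : ZMod (p ^ (k + 1))).val) = 0 := by
  have hp : p.Prime := Fact.out
  have hl : l.Prime := Fact.out
  have hodd : Odd (p ^ (k + 1)) := (hp.odd_of_ne_two hp2).pow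
  have hlf : Nat.Coprime l (p ^ (k + 1)) := by
    apply Nat.Coprime.pow_right
    rw [Nat.coprime_primes hl hp]
    exact hlp
  have h1f : 1 < p ^ (k + 1) := Nat.one_lt_pow (by omega) hp.one_lt
  have hstep : ∀ j : ℕ, ∑ v ∈ Hf (p ^ (k + 1)), (χ (v * a⁻¹) : Ω) ^ ((l ^ s) ^ j) *
      f (z ^ (v : ZMod (p ^ (k + 1))).val) = 0 := by
    intro j
    have h2 : ∑ v ∈ Hf (p ^ (k + 1)), (χ (v * a⁻¹) : Ω) ^ ((l ^ s) ^ j) *
        f (z ^ (v : ZMod (p ^ (k + 1))).val) = (χ a⁻¹ : Ω) ^ ((l ^ s) ^ j) *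
        ∑ v ∈ Hf (p ^ (k + 1)), (χ v : Ω) ^ ((l ^ s) ^ j) * f (z ^ (v : ZMod (p ^ (k + 1))).val) := by
      rw [mul_sum]
      refine sum_congr rfl (fun v _ => ?_)
      rw [map_mul, Units.val_mul, mul_pow]
      ring
    rw [h2, TD_step hodd hlf h1f hz hf1 hf2 χ hev h0 j, mul_zero]
  have hsum : ∑ j ∈ range (p ^ (k + 1 - e)), ∑ v ∈ Hf (p ^ (k + 1)), (χ (v * a⁻¹) : Ω) ^ ((l ^ s) ^ j) *
      f (z ^ (v : ZMod (p ^ (k + 1))).val) = 0 := sum_eq_zero (fun j _ => hstep j)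
  rw [sum_comm] at hsum
  have hJ : ((p ^ (k + 1 - e) : ℕ) : Ω) ≠ 0 := cast_ne hlp (k + 1 - e) Ω
  rw [sum_filter]
  refine (mul_eq_zero.1 ?_).resolve_left hJ
  rw [mul_sum]
  refine Eq.trans ?_ hsum
  refine sum_congr rfl (fun v _ => ?_)
  have hy : ((χ (v * a⁻¹) : Ωˣ) : Ω) ^ ((p - 1) * p ^ k) = 1 := by
    have h3 : (v * a⁻¹) ^ ((p - 1) * p ^ k) = 1 := by
      have h4 : Fintype.card (ZMod (p ^ (k + 1)))ˣ = (p - 1) * p ^ k := by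
        rw [ZMod.card_units_eq_totient, Nat.totient_prime_pow hp (Nat.succ_pos k), Nat.succ_sub_one]
        ring
      rw [← h4]
      exact pow_card_eq_one
    rw [← Units.val_pow_eq_pow_val, ← map_pow, h3, map_one, Units.val_one]
  rw [← sum_mul, av1 hp2 hlp hQ hek hy]
  by_cases h5 : χ (v * a⁻¹) ^ (l ^ s) = χ (v * a⁻¹)
  · have h6 : ((χ (v * a⁻¹) : Ωˣ) : Ω) ^ (l ^ s) = χ (v * a⁻¹) := by
      rw [← Units.val_pow_eq_pow_val, h5]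
    rw [if_pos h5, if_pos h6]
    ring
  · have h6 : ¬ ((χ (v * a⁻¹) : Ωˣ) : Ω) ^ (l ^ s) = χ (v * a⁻¹) := by
      intro h7
      apply h5
      apply Units.ext
      rw [Units.val_pow_eq_pow_val, h7]
    rw [if_neg h5, if_neg h6, zero_mul, mul_zero]

end H46TS
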