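import Pool.Agent.H46.TS.Ds

/-!
ROW TI (grouping by averaging over `1 + p^e b`). ADAPT `H55T3.grouping3` in `Pool/Agent/H55/T3/Z5.lean` (there `l = 3`): replace `CharP Ω 3` by `CharP Ω l` and
`three_cast_ne hp5` by `cast_ne hlp`; the private lemmas `Z5_sep`, `Z5_bound`, `Z5_geom` can be copied verbatim.
-/

set_option autoImplicit false

namespace H46TS

open Finset

private theorem TI_sep {p : ℕ} [Fact p.Prime] (x y : ℤ_[p]) (h : x ≠ y) :
    ∃ n : ℕ, ∀ m ≥ n, PadicInt.toZModPow m x ≠ PadicInt.toZModPow m y := by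
  have h1 : ¬ ∀ n, PadicInt.toZModPow n x = PadicInt.toZModPow n y := by
    rw [PadicInt.ext_of_toZModPow]
    exact h
  push Not at h1
  obtain ⟨n, hn⟩ := h1
  refine ⟨n, fun m hm he => hn ?_⟩
  rw [← PadicInt.cast_toZModPow n m hm x, ← PadicInt.cast_toZModPow n m hm y, he]

private theorem TI_bound {p : ℕ} [Fact p.Prime] {ι : Type} [Fintype ι] (γ : ι → ℤ_[p]) :
    ∃ K : ℕ, ∀ m ≥ K, ∀ i j, PadicInt.toZModPow m (γ i) = PadicInt.toZModPow m (γ j) →
      γ i = γ j := by
  classical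
  have h : ∀ q : ι × ι, ∃ n : ℕ, ∀ m ≥ n, PadicInt.toZModPow m (γ q.1) =
      PadicInt.toZModPow m (γ q.2) → γ q.1 = γ q.2 := by
    intro q
    by_cases hq : γ q.1 = γ q.2
    · exact ⟨0, fun _ _ _ => hq⟩
    · obtain ⟨n, hn⟩ := TI_sep _ _ hq
      exact ⟨n, fun m hm he => absurd he (hn m hm)⟩
  choose N hN using h
  refine ⟨Finset.univ.sup N, fun m hm i j he => hN (i, j) m ?_ he⟩
  exact (Finset.le_sup (f := N) (Finset.mem_univ (i, j))).trans hm

private theorem TI_geom {Ω : Type} [Field Ω] (y : Ω) (n : ℕ) (hy : y ^ n = 1) (h1 : y ≠ 1) :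
    ∑ b ∈ Finset.range n, y ^ b = 0 := by
  have h := geom_sum_mul y n
  rw [hy, sub_self] at h
  rcases mul_eq_zero.mp h with h | h
  · exact h
  · exact absurd (sub_eq_zero.mp h) h1

open Classical in
theorem grouping {l p e : ℕ} [Fact l.Prime] [Fact p.Prime] (hlp : l ≠ p) {ι : Type} [Fintype ι]
    (γ : ι → ℤ_[p]) :
    ∃ k0 : ℕ, ∀ k ≥ k0, ∀ (Ω : Type) [Field Ω] [CharP Ω l] (z : Ω), IsPrimitiveRoot z (p ^ (k + 1)) →
      ∀ Q : ι → Ω, (∀ b : ℕ, ∑ i, Q i * z ^ ((1 + p ^ e * b) * (PadicInt.toZModPow (k + 1) (γ i)).val) = 0) →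
        ∀ i0 : ι, ∑ i ∈ univ.filter (fun i => γ i = γ i0), Q i = 0 := by
  obtain ⟨K, hK⟩ := TI_bound γ
  refine ⟨K + e, fun k hk Ω _ _ z hz Q hQ i0 => ?_⟩
  have hppos : 0 < p := (Fact.out : p.Prime).pos
  set f : ℕ := p ^ (k + 1) with hf
  set n : ℕ := k + 1 - e with hn
  have hfn : f = p ^ e * p ^ n := by
    rw [hf, hn, ← pow_add]
    congr 1
    omega
  have hfpos : 0 < f := pow_pos hppos _
  have : NeZero (p ^ (k + 1)) := ⟨(pow_pos hppos _).ne'⟩
  set g : ι → ℕ := fun i => (PadicInt.toZModPow (k + 1) (γ i)).val with hg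
  have hgf : ∀ i, g i < f := fun i => ZMod.val_lt _
  set m : ι → ℕ := fun i => g i + (f - g i0) with hm
  have hnk : n ≤ k + 1 := by omega
  have hnK : K ≤ n := by omega
  have hgc : ∀ i, ((g i : ℕ) : ZMod (p ^ n)) = PadicInt.toZModPow n (γ i) := by
    intro i
    rw [hg]
    show ((PadicInt.toZModPow (k + 1) (γ i)).val : ZMod (p ^ n)) = _
    rw [ZMod.natCast_val, PadicInt.cast_toZModPow n (k + 1) hnk]
  have hrel : ∀ b : ℕ, ∑ i, Q i * z ^ m i * (z ^ (p ^ e * m i)) ^ b = 0 := by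
    intro b
    have h1 : ∑ i, Q i * z ^ m i * (z ^ (p ^ e * m i)) ^ b =
        (∑ i, Q i * z ^ ((1 + p ^ e * b) * g i)) * z ^ ((1 + p ^ e * b) * (f - g i0)) := by
      rw [Finset.sum_mul]
      refine Finset.sum_congr rfl (fun i _ => ?_)
      rw [mul_assoc (Q i), mul_assoc (Q i), ← pow_mul, ← pow_add, ← pow_add]
      congr 2
      rw [hm]
      ring
    rw [h1, hQ b, zero_mul]
  have hsum : ∑ i, Q i * z ^ m i * ∑ b ∈ Finset.range (p ^ n), (z ^ (p ^ e * m i)) ^ b = 0 := by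
    simp_rw [Finset.mul_sum]
    rw [Finset.sum_comm]
    exact Finset.sum_eq_zero (fun b _ => hrel b)
  have hterm : ∀ i, Q i * z ^ m i * ∑ b ∈ Finset.range (p ^ n), (z ^ (p ^ e * m i)) ^ b =
      if γ i = γ i0 then Q i * ((p ^ n : ℕ) : Ω) else 0 := by
    intro i
    by_cases hi : γ i = γ i0
    · rw [if_pos hi]
      have hgi : g i = g i0 := by
        rw [hg]
        show (PadicInt.toZModPow (k + 1) (γ i)).val = (PadicInt.toZModPow (k + 1) (γ i0)).val
        rw [hi]
      have hmi : m i = f := by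
        rw [hm]
        show g i + (f - g i0) = f
        have := hgf i0
        omega
      have hzf : z ^ f = 1 := hz.pow_eq_one
      rw [hmi, hzf, mul_one, mul_comm (p ^ e) f, pow_mul, hzf, one_pow]
      simp
    · rw [if_neg hi]
      have hy : z ^ (p ^ e * m i) ≠ 1 := by
        intro hy
        rw [hz.pow_eq_one_iff_dvd, hfn] at hy
        have h2 : p ^ n ∣ m i := Nat.dvd_of_mul_dvd_mul_left (pow_pos hppos e) hy
        have h3 : ((m i : ℕ) : ZMod (p ^ n)) = 0 := (ZMod.natCast_eq_zero_iff _ _).mpr h2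
        have h4 : m i + g i0 = g i + f := by
          have := hgf i0
          rw [hm]
          show g i + (f - g i0) + g i0 = g i + f
          omega
        have h5 : ((f : ℕ) : ZMod (p ^ n)) = 0 :=
          (ZMod.natCast_eq_zero_iff _ _).mpr (by rw [hfn]; exact dvd_mul_left _ _)
        have h6 := congrArg (fun x : ℕ => (x : ZMod (p ^ n))) h4
        simp only [Nat.cast_add] at h6
        rw [h3, h5, zero_add, add_zero, hgc, hgc] at h6
        exact hi (hK n hnK i i0 h6.symm)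
      rw [TI_geom _ _ _ hy, mul_zero]
      rw [← pow_mul]
      have h7 : p ^ e * m i * p ^ n = f * m i := by
        rw [hfn]
        ring
      rw [h7, pow_mul, hz.pow_eq_one, one_pow]
  rw [Finset.sum_congr rfl (fun i _ => hterm i), ← Finset.sum_filter, ← Finset.sum_mul] at hsum
  rcases mul_eq_zero.mp hsum with h | h
  · exact h
  · exact absurd h (cast_ne hlp n Ω)

end H46TS
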